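import Mathlib

set_option autoImplicit false

open Subgroup

namespace Pool.Agent.Results.MP_cd0fff_al.Classes

universe u

/-- Property (O): the normalizer of every nontrivial 2-subgroup has odd index. -/
def PropO (G : Type u) [Group G] : Prop :=
  ∀ P : Subgroup G, IsPGroup 2 P → P ≠ ⊥ → Odd (normalizer (P : Set G)).index

/-- A Dedekind group: every subgroup is normal. -/
def IsDedekind (S : Type u) [Group S] : Prop := ∀ H : Subgroup S, H.Normal

/-- internal form of the Dedekind property for a subgroup -/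
def Ded {G : Type u} [Group G] (S : Subgroup G) : Prop :=
  ∀ P : Subgroup G, P ≤ S → ∀ s ∈ S, ∀ p ∈ P, s * p * s⁻¹ ∈ P

section basic

set_option linter.unusedSectionVars false

variable {G : Type u} [Group G]

lemma ded_iff (S : Subgroup G) : IsDedekind S ↔ Ded S := by
  constructor
  · intro h P hP s hs p hp
    have h1 := (h (P.subgroupOf S)).conj_mem ⟨p, hP hp⟩ (by rw [mem_subgroupOf]; exact hp) ⟨s, hs⟩
    rw [mem_subgroupOf] at h1
    exact h1
  · intro h H
    refine ⟨fun n hn g => ?_⟩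
    have h1 := h (H.map S.subtype) (map_subtype_le H) g g.2 n (mem_map_of_mem _ hn)
    obtain ⟨y, hy, hy2⟩ := mem_map.1 h1
    have : y = g * n * g⁻¹ := by
      apply Subtype.ext
      rw [← S.subtype_apply y, hy2]; simp
    rw [← this]; exact hy

variable [Finite G]

lemma conj_le {N T : Subgroup G} (hT : IsPGroup 2 T) (hN : Odd N.index) :
    ∃ g : G, ∀ t ∈ T, g⁻¹ * t * g ∈ N := by
  have h1 : ¬ 2 ∣ Nat.card (G ⧸ N) := by
    rw [← Subgroup.index_eq_card]
    exact hN.not_two_dvd_nat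
  obtain ⟨x, hx⟩ := hT.nonempty_fixed_point_of_prime_not_dvd_card (G ⧸ N) h1
  induction x using QuotientGroup.induction_on with
  | H g =>
    refine ⟨g, fun t ht => ?_⟩
    have h2 := hx ⟨t, ht⟩
    have h3 : ((t * g : G) : G ⧸ N) = (g : G ⧸ N) := h2
    have h4 := QuotientGroup.eq.1 h3.symm
    rwa [← mul_assoc] at h4

lemma norm_all (h : PropO G) {R : Subgroup G} [hRn : R.Normal] (hR : IsPGroup 2 R)
    {P : Subgroup G} (hP : IsPGroup 2 P) {r p : G} (hr : r ∈ R) (hp : p ∈ P) :
    r * p * r⁻¹ ∈ P := by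
  by_cases hP1 : P = ⊥
  · subst hP1
    rw [mem_bot] at hp ⊢
    subst hp; simp
  obtain ⟨g, hg⟩ := conj_le hR (h P hP hP1)
  have h1 := hg (g * r * g⁻¹) (hRn.conj_mem r hr g)
  have h2 : g⁻¹ * (g * r * g⁻¹) * g = r := by group
  rw [h2] at h1
  exact (mem_normalizer_iff.1 h1 p).1 hp

lemma odd_two_one {a : G} {k m : ℕ} (h1 : a ^ 2 ^ k = 1) (h2 : a ^ m = 1) (hm : Odd m) : a = 1 := by
  have hc : Nat.Coprime (2 ^ k) m := (Nat.coprime_two_left.2 hm).pow_left k
  have := orderOf_dvd_of_pow_eq_one h1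
  have h3 := orderOf_dvd_of_pow_eq_one h2
  have h4 := Nat.dvd_gcd this h3
  rw [hc] at h4
  exact orderOf_eq_one_iff.1 (Nat.dvd_one.1 h4)

lemma dedekind_imp (h : ∀ S : Sylow 2 G, Ded (S : Subgroup G)) : PropO G := by
  intro P hP _
  obtain ⟨S, hS⟩ := hP.exists_le_sylow
  have h1 : (S : Subgroup G) ≤ normalizer (P : Set G) := by
    intro s hs
    rw [mem_normalizer_iff]
    intro x
    refine ⟨fun hx => h S P hS s hs x hx, fun hx => ?_⟩
    have := h S P hS s⁻¹ (inv_mem hs) _ hx
    have e : s⁻¹ * (s * x * s⁻¹) * s⁻¹⁻¹ = x := by group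
    rwa [e] at this
  have h2 := index_dvd_of_le h1
  have h3 := S.not_dvd_index
  rw [← Nat.not_even_iff_odd]
  intro h4
  exact h3 ((even_iff_two_dvd.1 h4).trans h2)

lemma propO_quot (h : PropO G) (M : Subgroup G) [M.Normal] : PropO (G ⧸ M) := by
  intro P hP hP1
  obtain ⟨T, hT⟩ := hP.exists_le_sylow
  have hs := QuotientGroup.mk'_surjective M
  obtain ⟨S, hS⟩ := Sylow.mapSurjective_surjective hs 2 T
  have hST : (S : Subgroup G).map (QuotientGroup.mk' M) = T := by
    rw [← hS]; rfl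
  set Q : Subgroup G := (S : Subgroup G) ⊓ P.comap (QuotientGroup.mk' M) with hQ
  have hQp : IsPGroup 2 Q := S.2.to_le inf_le_left
  have hmap : Q.map (QuotientGroup.mk' M) = P := by
    apply le_antisymm
    · rw [map_le_iff_le_comap]; exact inf_le_right
    · intro p hp
      have : p ∈ (S : Subgroup G).map (QuotientGroup.mk' M) := by rw [hST]; exact hT hp
      obtain ⟨s, hs1, hs2⟩ := mem_map.1 this
      exact mem_map.2 ⟨s, mem_inf.2 ⟨hs1, by rw [mem_comap, hs2]; exact hp⟩, hs2⟩
  have hQ1 : Q ≠ ⊥ := by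
    intro h0
    apply hP1
    rw [← hmap, h0, Subgroup.map_bot]
  have h1 := h Q hQp hQ1
  have h2 : (normalizer (Q : Set G)).map (QuotientGroup.mk' M) ≤ normalizer (P : Set (G ⧸ M)) := by
    rintro _ ⟨g, hg, rfl⟩
    have hg : g ∈ normalizer (Q : Set G) := hg
    have key : ∀ g ∈ normalizer (Q : Set G), ∀ x ∈ P,
        (QuotientGroup.mk' M g) * x * (QuotientGroup.mk' M g)⁻¹ ∈ P := by
      intro g hg x hx
      rw [← hmap] at hx ⊢
      obtain ⟨q, hq, rfl⟩ := mem_map.1 hx
      refine mem_map.2 ⟨g * q * g⁻¹, (mem_normalizer_iff.1 hg q).1 hq, by simp⟩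
    rw [mem_normalizer_iff]
    intro x
    refine ⟨key g hg x, fun hx => ?_⟩
    have := key g⁻¹ (inv_mem hg) _ hx
    have e : (QuotientGroup.mk' M) g⁻¹ * ((QuotientGroup.mk' M) g * x * ((QuotientGroup.mk' M) g)⁻¹) *
      ((QuotientGroup.mk' M) g⁻¹)⁻¹ = x := by
      rw [map_inv]; group
    rwa [e] at this
  have h3 := index_dvd_of_le h2
  have h4 := (normalizer (Q : Set G)).index_map_dvd hs
  exact h1.of_dvd_nat (h3.trans h4)

lemma ded_lift (M : Subgroup G) [M.Normal] (hM : Odd (Nat.card M))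
    (h : ∀ T : Sylow 2 (G ⧸ M), Ded (T : Subgroup (G ⧸ M))) (S : Sylow 2 G) :
    Ded (S : Subgroup G) := by
  intro P hP s hs p hp
  have hsur := QuotientGroup.mk'_surjective M
  have h1 := h (S.mapSurjective hsur) (P.map (QuotientGroup.mk' M)) (map_mono hP)
    (QuotientGroup.mk' M s) (mem_map_of_mem _ hs) (QuotientGroup.mk' M p) (mem_map_of_mem _ hp)
  obtain ⟨p', hp', he⟩ := mem_map.1 h1
  have e1 : (QuotientGroup.mk' M) p' = (QuotientGroup.mk' M) (s * p * s⁻¹) := by
    rw [he]; simp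
  have h2 : p'⁻¹ * (s * p * s⁻¹) ∈ M := QuotientGroup.eq.1 e1
  have h3 : p'⁻¹ * (s * p * s⁻¹) ∈ (S : Subgroup G) :=
    mul_mem (inv_mem (hP hp')) (mul_mem (mul_mem hs (hP hp)) (inv_mem hs))
  obtain ⟨k, hk⟩ := S.2 ⟨_, h3⟩
  have hk' : (p'⁻¹ * (s * p * s⁻¹)) ^ 2 ^ k = 1 := by
    have := congrArg Subtype.val hk
    simpa using this
  have h4 : (p'⁻¹ * (s * p * s⁻¹)) ^ Nat.card M = 1 := by
    exact congrArg Subtype.val (pow_card_eq_one' (x := (⟨_, h2⟩ : M)))
  have h5 := odd_two_one hk' h4 hM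
  have h6 : s * p * s⁻¹ = p' := by
    have := congrArg (fun t => p' * t) h5
    simpa using this
  rw [h6]; exact hp'

end basic

/-- squares -/
def sqs (H : Type u) [Group H] : Subgroup H := closure {y | ∃ r, y = r ^ 2}

lemma frattini {H : Type u} [Group H] [Finite H] (hH : IsPGroup 2 H)
    (hd : ∀ M : Subgroup H, M.Normal) (C : Subgroup H) (hC : C ⊔ sqs H = ⊤) : C = ⊤ := by
  by_contra hne
  obtain ⟨M, hM, hCM⟩ := (eq_top_or_exists_le_coatom C).resolve_left hne
  have hsq : sqs H ≤ M := by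
    rw [sqs, closure_le]
    rintro _ ⟨r, rfl⟩
    by_contra hr
    have hr' : r ^ 2 ∉ M := hr
    have h1 : M ⊔ zpowers (r ^ 2) = ⊤ := by
      refine hM.2 _ (lt_of_le_of_ne le_sup_left fun h => hr' ?_)
      rw [h]; exact (le_sup_right : zpowers (r ^ 2) ≤ _) (mem_zpowers _)
    have h2 : r ∈ M ⊔ zpowers (r ^ 2) := by rw [h1]; exact mem_top _
    have := hd M
    obtain ⟨m, hm, z, hz, hmz⟩ := mem_sup_of_normal_left.1 h2
    obtain ⟨j, rfl⟩ := mem_zpowers_iff.1 hz
    obtain ⟨n, hn⟩ := hH r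
    have hmr : m = r ^ (1 - 2 * j) := by
      have e : m = r * ((r ^ 2) ^ j)⁻¹ := eq_mul_inv_of_mul_eq hmz
      rw [e, zpow_sub, zpow_one, ← zpow_natCast, ← zpow_mul]
      norm_cast
    have hcop : IsCoprime (1 - 2 * j) ((2 : ℤ) ^ n) := by
      apply IsCoprime.pow_right
      exact ⟨1, j, by ring⟩
    obtain ⟨a, b, hab⟩ := hcop
    have hrM : r = m ^ a := by
      rw [hmr, ← zpow_mul]
      have e2 : (1 - 2 * j) * a = 1 - 2 ^ n * b := by linear_combination hab
      rw [e2, zpow_sub, zpow_one, zpow_mul]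
      have : r ^ ((2 : ℤ) ^ n) = 1 := by
        rw [← hn, ← zpow_natCast]; norm_cast
      rw [this]; simp
    apply hr'
    rw [hrM]
    exact pow_mem (zpow_mem hm a) 2
  apply hM.1
  rw [eq_top_iff, ← hC]
  exact sup_le hCM hsq

section normal

variable {G : Type u} [Group G]

/-- the subgroup generated by the squares of elements of `R` -/
def sq (R : Subgroup G) : Subgroup G := closure {y | ∃ r ∈ R, y = r ^ 2}

lemma sq_le (R : Subgroup G) : sq R ≤ R := by
  rw [sq, closure_le]
  rintro _ ⟨r, hr, rfl⟩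
  exact pow_mem hr 2

lemma sq_mem {R : Subgroup G} {r : G} (hr : r ∈ R) : r ^ 2 ∈ sq R := subset_closure ⟨r, hr, rfl⟩

instance sq_normal (R : Subgroup G) [hR : R.Normal] : (sq R).Normal := by
  refine ⟨fun n hn g => ?_⟩
  have h1 : sq R ≤ (sq R).comap (MulAut.conj g).toMonoidHom := by
    conv_lhs => rw [sq]
    rw [closure_le]
    rintro _ ⟨r, hr, rfl⟩
    change (MulAut.conj g) (r ^ 2) ∈ sq R
    rw [map_pow]
    apply sq_mem
    exact hR.conj_mem r hr g
  exact h1 hn

lemma comm_mod {R : Subgroup G} [R.Normal] {a b : G} (ha : a ∈ R) (hb : b ∈ R) :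
    (QuotientGroup.mk' (sq R)) a * (QuotientGroup.mk' (sq R)) b =
      (QuotientGroup.mk' (sq R)) b * (QuotientGroup.mk' (sq R)) a := by
  have h1 : (b * a)⁻¹ * (a * b) ∈ sq R := by
    have e : (b * a)⁻¹ * (a * b) = (a⁻¹) ^ 2 * (a * b⁻¹) ^ 2 * b ^ 2 := by
      simp only [pow_two]; group
    rw [e]
    exact mul_mem (mul_mem (sq_mem (inv_mem ha)) (sq_mem (mul_mem ha (inv_mem hb)))) (sq_mem hb)
  rw [← map_mul, ← map_mul]
  exact (QuotientGroup.eq.2 h1).symm

lemma mk_sq {R : Subgroup G} [R.Normal] {a : G} (ha : a ∈ R) :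
    (QuotientGroup.mk' (sq R)) a * (QuotientGroup.mk' (sq R)) a = 1 := by
  rw [← map_mul, ← pow_two]
  exact (QuotientGroup.eq_one_iff _).2 (sq_mem ha)

lemma mk_one_iff {D : Subgroup G} [D.Normal] {a : G} : (QuotientGroup.mk' D) a = 1 ↔ a ∈ D :=
  QuotientGroup.eq_one_iff _

/-- the kernel of the action on `R / sq R` -/
def ker (R : Subgroup G) [R.Normal] : Subgroup G :=
  (centralizer ((R.map (QuotientGroup.mk' (sq R)) : Subgroup _) : Set (G ⧸ sq R))).comap
    (QuotientGroup.mk' (sq R))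

lemma mem_ker {R : Subgroup G} [R.Normal] {g : G} :
    g ∈ ker R ↔ ∀ r ∈ R, (QuotientGroup.mk' (sq R)) r * (QuotientGroup.mk' (sq R)) g =
      (QuotientGroup.mk' (sq R)) g * (QuotientGroup.mk' (sq R)) r := by
  rw [ker, mem_comap, mem_centralizer_iff]
  constructor
  · intro h r hr
    exact h _ (mem_map_of_mem _ hr)
  · rintro h _ ⟨r, hr, rfl⟩
    exact h r hr

instance ker_normal (R : Subgroup G) [hR : R.Normal] : (ker R).Normal := by
  have h1 : (R.map (QuotientGroup.mk' (sq R))).Normal :=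
    hR.map _ (QuotientGroup.mk'_surjective _)
  rw [ker]
  infer_instance

end normal


section main

variable {G : Type u} [Group G] [Finite G]

lemma fix_all {R : Subgroup G} [hRn : R.Normal] (hR : IsPGroup 2 R) (hd : IsDedekind R)
    {a : G} {q : ℕ} [hqp : Fact q.Prime] (hq : q ≠ 2) (ha : a ^ q = 1) (hK : a ∈ ker R) :
    ∀ r ∈ R, a * r = r * a := by
  classical
  set π := QuotientGroup.mk' (sq R) with hπ
  have hfix : ∀ r ∈ R, ∃ y : G, π y = π r ∧ a * y * a⁻¹ = y := by
    intro r hr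
    have hconj : ∀ b ∈ ker R, ∀ y : G, π y = π r → π (b * y * b⁻¹) = π r := by
      intro b hb y hy
      rw [map_mul, map_mul, hy, ← (mem_ker.1 hb r hr), map_inv, mul_inv_cancel_right]
    let σ : Equiv.Perm {y : G // π y = π r} :=
      { toFun := fun y => ⟨a * y * a⁻¹, hconj a hK y y.2⟩
        invFun := fun y => ⟨a⁻¹ * y * a⁻¹⁻¹, hconj a⁻¹ (inv_mem hK) y y.2⟩
        left_inv := fun y => by ext; simp only; group
        right_inv := fun y => by ext; simp only; group }
    have hσ : ∀ k : ℕ, ∀ y, ((σ ^ k) y : G) = a ^ k * y * (a ^ k)⁻¹ := by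
      intro k
      induction k with
      | zero => intro y; simp
      | succ k ih =>
        intro y
        rw [pow_succ', Equiv.Perm.mul_apply]
        change a * ((σ ^ k) y : G) * a⁻¹ = _
        rw [ih, pow_succ']
        group
    have hσq : σ ^ q ^ 1 = 1 := by
      ext y
      rw [pow_one, hσ, ha]; simp
    have : Fintype {y : G // π y = π r} := Fintype.ofFinite _
    have hcard : ¬ q ∣ Fintype.card {y : G // π y = π r} := by
      have e : {y : G // π y = π r} ≃ sq R :=
        { toFun := fun y => ⟨r⁻¹ * y, QuotientGroup.eq.1 y.2.symm⟩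
          invFun := fun d => ⟨r * d, by
            rw [map_mul, mk_one_iff.2 d.2, mul_one]⟩
          left_inv := fun y => by ext; simp
          right_inv := fun d => by ext; simp }
      have h1 : IsPGroup 2 (sq R) := hR.to_le (sq_le R)
      obtain ⟨n, hn⟩ := IsPGroup.iff_card.1 h1
      rw [← Nat.card_eq_fintype_card, Nat.card_congr e, hn]
      intro h2
      have h3 := hqp.out.dvd_of_dvd_pow h2
      exact hq ((Nat.prime_dvd_prime_iff_eq hqp.out Nat.prime_two).1 h3)
    obtain ⟨y, hy⟩ := Equiv.Perm.exists_fixed_point_of_prime hcard hσq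
    exact ⟨y, y.2, congrArg Subtype.val hy⟩
  have hC : (centralizer ({a} : Set G)).subgroupOf R ⊔ sqs R = ⊤ := by
    rw [eq_top_iff]
    rintro ⟨r, hr⟩ -
    obtain ⟨y, hy1, hy2⟩ := hfix r hr
    have hd1 : y⁻¹ * r ∈ sq R := QuotientGroup.eq.1 hy1
    have hyR : y ∈ R := by
      have : y = r * (y⁻¹ * r)⁻¹ := by group
      rw [this]; exact mul_mem hr (inv_mem (sq_le R hd1))
    have hsq : sq R ≤ (sqs R).map R.subtype := by
      rw [sq, closure_le]
      rintro _ ⟨t, ht, rfl⟩
      exact mem_map.2 ⟨⟨t, ht⟩ ^ 2, subset_closure ⟨⟨t, ht⟩, rfl⟩, rfl⟩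
    obtain ⟨d, hd2, hd3⟩ := mem_map.1 (hsq hd1)
    have e : (⟨r, hr⟩ : R) = ⟨y, hyR⟩ * d := by
      apply Subtype.ext
      change r = y * R.subtype d
      rw [hd3]; group
    rw [e]
    refine mul_mem ((le_sup_left : _ ≤ (centralizer ({a} : Set G)).subgroupOf R ⊔ sqs R) ?_)
      ((le_sup_right : _ ≤ (centralizer ({a} : Set G)).subgroupOf R ⊔ sqs R) hd2)
    rw [mem_subgroupOf, mem_centralizer_iff]
    rintro _ rfl
    exact (eq_mul_inv_iff_mul_eq.1 hy2.symm).symm
  have h1 := frattini hR hd _ hC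
  intro r hr
  have h2 : (⟨r, hr⟩ : R) ∈ (centralizer ({a} : Set G)).subgroupOf R := by rw [h1]; exact mem_top _
  rw [mem_subgroupOf, mem_centralizer_iff] at h2
  exact h2 a rfl

lemma ker_le (hsolv : Group.IsSolvable G)
    (hodd : ∀ N : Subgroup G, N.Normal → Odd (Nat.card N) → N = ⊥)
    {R : Subgroup G} [hRn : R.Normal] (hR : IsPGroup 2 R)
    (hmax : ∀ N : Subgroup G, N.Normal → IsPGroup 2 N → N ≤ R) (hd : IsDedekind R) :
    ker R ≤ R := by
  by_contra hcon
  let L : ℕ → Subgroup G := fun n => Nat.rec (ker R) (fun _ H => ⁅H, H⁆) n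
  have hLs : ∀ n, L (n + 1) = ⁅L n, L n⁆ := fun n => rfl
  have hLn : ∀ n, (L n).Normal := by
    intro n
    induction n with
    | zero => exact ker_normal R
    | succ n ih => exact @Subgroup.commutator_normal G _ _ _ ih ih
  have hLd : ∀ n, L n ≤ derivedSeries G n := by
    intro n
    induction n with
    | zero => exact le_top
    | succ n ih => rw [hLs, derivedSeries_succ]; exact commutator_mono ih ih
  have hLk : ∀ n, L n ≤ ker R := by
    intro n
    induction n with
    | zero => exact le_rfl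
    | succ n ih =>
      rw [hLs]
      exact (@commutator_le_left G _ (L n) (L n) (hLn n)).trans ih
  have hex : ∃ n, L n ≤ R := by
    obtain ⟨n, hn⟩ := hsolv.solvable
    exact ⟨n, (hLd n).trans (by rw [hn]; exact bot_le)⟩
  obtain ⟨n, hN1, hN2⟩ : ∃ n, ¬ L n ≤ R ∧ ⁅L n, L n⁆ ≤ R := by
    by_contra hno
    push Not at hno
    obtain ⟨n, hn⟩ := hex
    have : ∀ n, ¬ L n ≤ R := by
      intro n
      induction n with
      | zero => exact hcon
      | succ n ih => exact hno n ih
    exact this n hn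
  have hNn : (L n).Normal := hLn n
  have hNk : L n ≤ ker R := hLk n
  generalize L n = N at hN1 hN2 hNn hNk
  have hN2g : ¬ IsPGroup 2 N := fun h => hN1 (hmax N hNn h)
  have hq : ∃ q : ℕ, q.Prime ∧ q ∣ Nat.card N ∧ q ≠ 2 := by
    by_contra hno
    push Not at hno
    apply hN2g
    rw [IsPGroup.iff_card]
    exact ⟨_, Nat.eq_prime_pow_of_unique_prime_dvd Nat.card_pos.ne' (fun {d} h1 h2 => hno d h1 h2)⟩
  obtain ⟨q, hqp, hqd, hq2⟩ := hq
  have : Fact q.Prime := ⟨hqp⟩
  obtain ⟨x, hx⟩ := exists_prime_orderOf_dvd_card' q hqd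
  have hodd_q : Odd q := hqp.odd_of_ne_two hq2
  have ha : (x : G) ^ q = 1 := by
    have := pow_orderOf_eq_one x
    rw [hx] at this
    exact congrArg Subtype.val this
  have hcomm := fix_all hR hd hq2 ha (hNk x.2)
  have hcent : ∀ y ∈ N, y * x = x * y := by
    intro y hy
    have hc : y * x * y⁻¹ * (x : G)⁻¹ ∈ R := hN2 (commutator_mem_commutator hy x.2)
    have h1 : Commute (y * x * y⁻¹ * (x : G)⁻¹) (x : G) := (hcomm _ hc).symm
    have h2 : (y * x * y⁻¹) ^ q = 1 := by
      rw [conj_pow, ha]; simp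
    have h3 : (y * x * y⁻¹ * (x : G)⁻¹) ^ q = 1 := by
      have e : y * x * y⁻¹ = (y * x * y⁻¹ * (x : G)⁻¹) * x := by group
      rw [e, h1.mul_pow, ha, mul_one] at h2
      exact h2
    obtain ⟨k, hk⟩ := hR ⟨_, hc⟩
    have hk' : (y * x * y⁻¹ * (x : G)⁻¹) ^ 2 ^ k = 1 := congrArg Subtype.val hk
    have h4 := odd_two_one hk' h3 hodd_q
    have h5 : y * x * y⁻¹ = x := mul_inv_eq_one.1 h4
    exact mul_inv_eq_iff_eq_mul.1 h5
  let Z : Subgroup G :=
    { carrier := {z | z ∈ N ∧ (∀ y ∈ N, y * z = z * y) ∧ z ^ q = 1}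
      one_mem' := ⟨one_mem _, by simp, by simp⟩
      mul_mem' := by
        rintro u v ⟨hu1, hu2, hu3⟩ ⟨hv1, hv2, hv3⟩
        refine ⟨mul_mem hu1 hv1, fun y hy => ?_, ?_⟩
        · rw [← mul_assoc, hu2 y hy, mul_assoc, hv2 y hy, mul_assoc]
        · have : Commute u v := hv2 u hu1
          rw [this.mul_pow, hu3, hv3, mul_one]
      inv_mem' := by
        rintro u ⟨hu1, hu2, hu3⟩
        refine ⟨inv_mem hu1, fun y hy => ?_, by rw [inv_pow, hu3, inv_one]⟩
        have h1 : Commute y u := hu2 y hy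
        exact h1.inv_right }
  have hZ : ∀ z, z ∈ Z ↔ z ∈ N ∧ (∀ y ∈ N, y * z = z * y) ∧ z ^ q = 1 := fun z => Iff.rfl
  have hZn : Z.Normal := by
    refine ⟨fun z hz g => ?_⟩
    obtain ⟨h1, h2, h3⟩ := (hZ z).1 hz
    refine (hZ _).2 ⟨hNn.conj_mem z h1 g, fun y hy => ?_, by rw [conj_pow, h3]; simp⟩
    have h4 := h2 (g⁻¹ * y * g) (by
      have := hNn.conj_mem y hy g⁻¹
      simpa using this)
    calc y * (g * z * g⁻¹) = g * ((g⁻¹ * y * g) * z) * g⁻¹ := by group
      _ = g * (z * (g⁻¹ * y * g)) * g⁻¹ := by rw [h4]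
      _ = g * z * g⁻¹ * y := by group
  have hZp : IsPGroup q Z := by
    intro z
    refine ⟨1, ?_⟩
    apply Subtype.ext
    rw [pow_one]
    exact ((hZ z).1 z.2).2.2
  have hZo : Odd (Nat.card Z) := by
    obtain ⟨m, hm⟩ := IsPGroup.iff_card.1 hZp
    rw [hm]; exact hodd_q.pow
  have hZb := hodd Z hZn hZo
  have hxZ : (x : G) ∈ Z := (hZ _).2 ⟨x.2, hcent, ha⟩
  rw [hZb, mem_bot] at hxZ
  have : x = 1 := Subtype.ext hxZ
  rw [this, orderOf_one] at hx
  exact hqp.one_lt.ne hx

lemma sylow_le (h : PropO G) {R : Subgroup G} [hRn : R.Normal] (hR : IsPGroup 2 R)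
    (hker : ker R ≤ R) (S : Subgroup G) (hS : IsPGroup 2 S) : S ≤ R := by
  set π := QuotientGroup.mk' (sq R) with hπ
  -- (star): commutators with elements of `R` are even powers
  have star : ∀ x : G, x ∉ R → x ^ 2 ∈ R → ∀ r ∈ R, ∃ i : ℤ, x * r * x⁻¹ * r⁻¹ = (x ^ 2) ^ i := by
    intro x hx hx2 r hr
    have hxp : IsPGroup 2 (zpowers x) := by
      obtain ⟨k, hk⟩ := hR ⟨_, hx2⟩
      have hk' : (x ^ 2) ^ 2 ^ k = 1 := congrArg Subtype.val hk
      rw [IsPGroup.iff_card]
      have h1 : orderOf x ∣ 2 ^ (k + 1) := by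
        apply orderOf_dvd_of_pow_eq_one
        rw [pow_succ', pow_mul]; exact hk'
      obtain ⟨m, -, hm⟩ := (Nat.dvd_prime_pow Nat.prime_two).1 h1
      exact ⟨m, by rw [Nat.card_zpowers, hm]⟩
    have h1 := norm_all h hR hxp hr (mem_zpowers x)
    have h2 : x * r * x⁻¹ * r⁻¹ ∈ zpowers x := by
      have e : x * r * x⁻¹ * r⁻¹ = x * (r * x * r⁻¹)⁻¹ := by group
      rw [e]; exact mul_mem (mem_zpowers x) (inv_mem h1)
    have h3 : x * r * x⁻¹ * r⁻¹ ∈ R := mul_mem (hRn.conj_mem r hr x) (inv_mem hr)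
    obtain ⟨j, hj⟩ := mem_zpowers_iff.1 h2
    rcases Int.even_or_odd' j with ⟨i, hi | hi⟩
    · refine ⟨i, ?_⟩
      rw [← hj, hi, zpow_mul]; norm_cast
    · exfalso
      apply hx
      have h4 : x ^ j ∈ R := by rw [hj]; exact h3
      rw [hi, zpow_add, zpow_mul, zpow_one] at h4
      have h5 : (x ^ (2 : ℤ)) ^ i ∈ R := zpow_mem (by exact_mod_cast hx2) i
      exact (Subgroup.mul_mem_cancel_left R h5).1 h4
  have star2 : ∀ x : G, x ∉ R → x ^ 2 ∈ R → x ^ 2 ∉ sq R := by
    intro x hx hx2 hxD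
    apply hx
    apply hker
    rw [mem_ker]
    intro r hr
    obtain ⟨i, hi⟩ := star x hx hx2 r hr
    have h1 : x * r * x⁻¹ * r⁻¹ ∈ sq R := by rw [hi]; exact zpow_mem hxD i
    have h2 : π (x * r * x⁻¹ * r⁻¹) = 1 := mk_one_iff.2 h1
    rw [map_mul, map_mul, map_mul, map_inv, map_inv, mul_inv_eq_one, mul_inv_eq_iff_eq_mul] at h2
    exact h2.symm
  have star3 : ∀ x : G, x ∉ R → x ^ 2 ∈ R → False := by
    intro x hx hx2
    have h1 : ∃ r ∈ R, x * r * x⁻¹ * r⁻¹ ∉ sq R := by
      by_contra hno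
      push Not at hno
      apply hx
      apply hker
      rw [mem_ker]
      intro r hr
      have h2 : π (x * r * x⁻¹ * r⁻¹) = 1 := mk_one_iff.2 (hno r hr)
      rw [map_mul, map_mul, map_mul, map_inv, map_inv, mul_inv_eq_one, mul_inv_eq_iff_eq_mul] at h2
      exact h2.symm
    obtain ⟨r, hr, hc⟩ := h1
    obtain ⟨i, hi⟩ := star x hx hx2 r hr
    have hcR : x * r * x⁻¹ * r⁻¹ ∈ R := mul_mem (hRn.conj_mem r hr x) (inv_mem hr)
    have hsq1 : ∀ l : ℤ, (x ^ 2) ^ (2 * l) ∈ sq R := by
      intro l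
      rw [mul_comm, zpow_mul]
      exact_mod_cast sq_mem (zpow_mem hx2 l)
    have hcπ : π (x * r * x⁻¹ * r⁻¹) = π (x ^ 2) := by
      rcases Int.even_or_odd' i with ⟨l, hl | hl⟩
      · exfalso; apply hc; rw [hi, hl]; exact hsq1 l
      · rw [hi, hl, zpow_add, zpow_one, map_mul, mk_one_iff.2 (hsq1 l), one_mul]
    set c := x * r * x⁻¹ * r⁻¹ with hcdef
    have hxr : x * r = c * r * x := by rw [hcdef]; group
    have hy2 : (x * r) ^ 2 = c * r * x ^ 2 * r := by
      rw [pow_two]
      calc x * r * (x * r) = (c * r * x) * (x * r) := by rw [← hxr]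
        _ = c * r * x ^ 2 * r := by rw [pow_two]; group
    have hyD : (x * r) ^ 2 ∈ sq R := by
      rw [← mk_one_iff, hy2, map_mul, map_mul, map_mul]
      change π c * π r * π (x ^ 2) * π r = 1
      rw [hcπ, mul_assoc (π (x ^ 2)), comm_mod hr hx2, ← mul_assoc]
      rw [mk_sq hx2, one_mul, mk_sq hr]
    have hyR : x * r ∉ R := fun h => hx ((Subgroup.mul_mem_cancel_right R hr).1 h)
    exact star2 _ hyR (sq_le R hyD) hyD
  intro x0 hx0
  obtain ⟨k, hk⟩ := hS ⟨x0, hx0⟩
  have hk' : x0 ^ 2 ^ k = 1 := congrArg Subtype.val hk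
  clear hk
  have : ∀ k : ℕ, x0 ^ 2 ^ k ∈ R → x0 ∈ R := by
    intro k
    induction k with
    | zero => intro h; simpa using h
    | succ k ih =>
      intro h
      apply ih
      by_contra hcon
      refine star3 _ hcon ?_
      rw [← pow_mul, ← pow_succ]; exact h
  exact this k (by rw [hk']; exact one_mem _)

end main

theorem ded_of_propO (n : ℕ) : ∀ (G : Type u) [Group G] [Finite G], Nat.card G = n → Group.IsSolvable G →
    PropO G → ∀ S : Sylow 2 G, Ded (S : Subgroup G) := by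
  induction n using Nat.strong_induction_on with
  | _ n ih =>
    intro G _ _ hcard hsolv hO S
    by_cases hM : ∃ M : Subgroup G, M.Normal ∧ Odd (Nat.card M) ∧ M ≠ ⊥
    · obtain ⟨M, hMn, hMo, hMb⟩ := hM
      have hlt : Nat.card (G ⧸ M) < n := by
        rw [← hcard, ← M.card_mul_index, ← Subgroup.index_eq_card]
        have h1 : 1 < Nat.card M := (Subgroup.one_lt_card_iff_ne_bot M).2 hMb
        have h2 : 0 < M.index := Nat.pos_of_ne_zero M.index_ne_zero_of_finite
        nlinarith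
      exact ded_lift M hMo (fun T => ih _ hlt (G ⧸ M) rfl
        (Group.isSolvable_of_surjective (QuotientGroup.mk'_surjective M)) (propO_quot hO M) T) S
    · push Not at hM
      set R : Subgroup G := (S : Subgroup G).normalCore with hRdef
      have hRS : R ≤ S := normalCore_le _
      have hRp : IsPGroup 2 R := S.2.to_le hRS
      have hmax : ∀ N : Subgroup G, N.Normal → IsPGroup 2 N → N ≤ R := by
        intro N hN hNp
        rw [hRdef, normal_le_normalCore]
        have h1 : IsPGroup 2 ((S : Subgroup G) ⊔ N : Subgroup G) := S.2.to_sup_of_normal_right hNp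
        have h2 := S.3 h1 le_sup_left
        rw [← h2]; exact le_sup_right
      have hdR : Ded R := fun P hP s hs p hp => norm_all hO hRp (hRp.to_le hP) hs hp
      have hk := ker_le hsolv hM hRp hmax ((ded_iff R).2 hdR)
      have hSR : (S : Subgroup G) ≤ R := sylow_le hO hRp hk S S.2
      have : (S : Subgroup G) = R := le_antisymm hSR hRS
      rw [this]; exact hdR

/-- 2-constrained groups: for some normal subgroup `M` of odd order, `G / M` has a normal
2-subgroup which contains its own centralizer. -/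
def IsTwoConstrained (G : Type u) [Group G] : Prop :=
  ∃ (M : Subgroup G) (_ : M.Normal), Odd (Nat.card M) ∧
    ∃ R : Subgroup (G ⧸ M), R.Normal ∧ IsPGroup 2 R ∧ centralizer (R : Set (G ⧸ M)) ≤ R

section core

variable {G : Type u} [Group G] [Finite G]

lemma core_facts (hO : PropO G) (S : Sylow 2 G) :
    ∃ R : Subgroup G, R.Normal ∧ IsPGroup 2 R ∧ R ≤ S ∧
      (∀ N : Subgroup G, N.Normal → IsPGroup 2 N → N ≤ R) ∧ Ded R := by
  set R : Subgroup G := (S : Subgroup G).normalCore with hRdef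
  have hRS : R ≤ S := normalCore_le _
  have hRp : IsPGroup 2 R := S.2.to_le hRS
  refine ⟨R, inferInstance, hRp, hRS, fun N hN hNp => ?_,
    fun P hP s hs p hp => norm_all hO hRp (hRp.to_le hP) hs hp⟩
  rw [hRdef, normal_le_normalCore]
  have h1 : IsPGroup 2 ((S : Subgroup G) ⊔ N : Subgroup G) := S.2.to_sup_of_normal_right hNp
  have h2 := S.3 h1 le_sup_left
  rw [← h2]; exact le_sup_right

lemma ded_of_centralizer (hO : PropO G) (R0 : Subgroup G) (hR0 : R0.Normal)
    (hR0p : IsPGroup 2 R0) (hcen : centralizer (R0 : Set G) ≤ R0) (S : Sylow 2 G) :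
    Ded (S : Subgroup G) := by
  obtain ⟨R, hRn, hRp, hRS, hmax, hdR⟩ := core_facts hO S
  have h0 : R0 ≤ R := hmax R0 hR0 hR0p
  have hcR : centralizer (R : Set G) ≤ R := (centralizer_le h0).trans (hcen.trans h0)
  have hk : ker R ≤ R := by
    refine hmax _ (ker_normal R) ?_
    by_contra hcon
    have hq : ∃ q : ℕ, q.Prime ∧ q ∣ Nat.card (ker R) ∧ q ≠ 2 := by
      by_contra hno
      push Not at hno
      apply hcon
      rw [IsPGroup.iff_card]
      exact ⟨_, Nat.eq_prime_pow_of_unique_prime_dvd Nat.card_pos.ne' (fun {d} h1 h2 => hno d h1 h2)⟩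
    obtain ⟨q, hqp, hqd, hq2⟩ := hq
    have : Fact q.Prime := ⟨hqp⟩
    obtain ⟨x, hx⟩ := exists_prime_orderOf_dvd_card' q hqd
    have ha : (x : G) ^ q = 1 := by
      have := pow_orderOf_eq_one x
      rw [hx] at this
      exact congrArg Subtype.val this
    have hcomm := fix_all hRp ((ded_iff R).2 hdR) hq2 ha x.2
    have hxR : (x : G) ∈ R := hcR (mem_centralizer_iff.2 fun y hy => (hcomm y hy).symm)
    obtain ⟨k, hk⟩ := hRp ⟨_, hxR⟩
    have hk' : (x : G) ^ 2 ^ k = 1 := congrArg Subtype.val hk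
    have hx1 := odd_two_one hk' ha (hqp.odd_of_ne_two hq2)
    have : x = 1 := Subtype.ext hx1
    rw [this, orderOf_one] at hx
    exact hqp.one_lt.ne hx
  have hSR : (S : Subgroup G) ≤ R := sylow_le hO hRp hk S S.2
  have : (S : Subgroup G) = R := le_antisymm hSR hRS
  rw [this]; exact hdR

lemma ded_of_constrained (hO : PropO G) (hc : IsTwoConstrained G) (S : Sylow 2 G) :
    Ded (S : Subgroup G) := by
  obtain ⟨M, hMn, hMo, R, hR, hRp, hcen⟩ := hc
  exact ded_lift M hMo (fun T => ded_of_centralizer (propO_quot hO M) R hR hRp hcen T) S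

end core

section types

variable {G : Type u} [Group G] [Finite G]

lemma odd_of_conj {N : Subgroup G} (S : Sylow 2 G) (g : G)
    (h : ∀ s ∈ (S : Subgroup G), g⁻¹ * s * g ∈ N) : Odd N.index := by
  have h1 : (S : Subgroup G).map (MulAut.conj g⁻¹ : G →* G) ≤ N := by
    rintro _ ⟨s, hs, rfl⟩
    have := h s hs
    simpa [MulAut.conj_apply] using this
  have h2 := (index_dvd_of_le h1).trans
    ((S : Subgroup G).index_map_dvd (MulAut.conj g⁻¹).surjective)
  rw [← Nat.not_even_iff_odd]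
  intro h4
  exact S.not_dvd_index ((even_iff_two_dvd.1 h4).trans h2)

lemma mem_norm_of {P : Subgroup G} {g : G} (h : ∀ p ∈ P, g * p * g⁻¹ ∈ P) :
    g ∈ normalizer (P : Set G) := by
  have h1 : P.map (MulAut.conj g : G →* G) = P := by
    apply Subgroup.eq_of_le_of_card_ge
    · rintro _ ⟨s, hs, rfl⟩
      exact h s hs
    · rw [Nat.card_congr (P.equivMapOfInjective (MulAut.conj g : G →* G)
        (MulAut.conj g).injective).toEquiv]
  rw [mem_normalizer_iff]
  intro x
  refine ⟨h x, fun hx => ?_⟩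
  rw [← h1] at hx
  obtain ⟨y, hy, hy2⟩ := mem_map.1 hx
  have : y = x := (MulAut.conj g).injective hy2
  rw [← this]; exact hy

lemma propO_iff (S : Sylow 2 G) : PropO G ↔ ∀ P : Subgroup G, P ≤ S → P ≠ ⊥ →
    ∃ g : G, ∀ s ∈ (S : Subgroup G), g⁻¹ * s * g ∈ normalizer (P : Set G) := by
  constructor
  · intro hO P hP hP1
    exact conj_le S.2 (hO P (S.2.to_le hP) hP1)
  · intro h P hP hP1
    obtain ⟨T, hT⟩ := hP.exists_le_sylow
    obtain ⟨g0, hg0⟩ := MulAction.exists_smul_eq G T S
    have hPS : P.map (MulAut.conj g0 : G →* G) ≤ S := by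
      rintro _ ⟨p, hp, rfl⟩
      rw [← hg0]
      have h3 := Subgroup.smul_mem_pointwise_smul p (MulAut.conj g0) (T : Subgroup G) (hT hp)
      exact h3
    have hP1' : P.map (MulAut.conj g0 : G →* G) ≠ ⊥ := by
      intro h0
      exact hP1 ((Subgroup.map_eq_bot_iff_of_injective P (MulAut.conj g0).injective).1 h0)
    obtain ⟨g, hg⟩ := h _ hPS hP1'
    apply odd_of_conj S (g * g0)
    intro s hs
    apply mem_norm_of
    intro p hp
    have h1 := (mem_normalizer_iff.1 (hg s hs) _).1 (mem_map_of_mem (MulAut.conj g0 : G →* G) hp)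
    obtain ⟨y, hy, hy2⟩ := mem_map.1 h1
    have h2 : y = (g * g0)⁻¹ * s * (g * g0) * p * ((g * g0)⁻¹ * s * (g * g0))⁻¹ := by
      have h3 : g0 * y * g0⁻¹ = g⁻¹ * s * g * (g0 * p * g0⁻¹) * (g⁻¹ * s * g)⁻¹ := hy2
      have h4 : y = g0⁻¹ * (g0 * y * g0⁻¹) * g0 := by group
      rw [h4, h3]; group
    rw [← h2]; exact hy

/-- every subgroup is isomorphic to a normal subgroup -/
def PropN (X : Type u) [Group X] : Prop :=
  ∀ H : Subgroup X, ∃ Q : Subgroup X, Q.Normal ∧ Nonempty (H ≃* Q)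

lemma propN_of_propO (hO : PropO G) (S : Sylow 2 G) : PropN S := by
  intro H
  by_cases hH : H = ⊥
  · subst hH; exact ⟨⊥, inferInstance, ⟨MulEquiv.refl _⟩⟩
  set P : Subgroup G := H.map (S : Subgroup G).subtype with hP
  have hPS : P ≤ S := map_subtype_le H
  have hP1 : P ≠ ⊥ := fun h0 =>
    hH ((Subgroup.map_eq_bot_iff_of_injective H (S : Subgroup G).subtype_injective).1 h0)
  obtain ⟨g, hg⟩ := (propO_iff S).1 hO P hPS hP1
  set P' : Subgroup G := P.map (MulAut.conj g : G →* G) with hP'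
  have hnorm : ∀ s ∈ (S : Subgroup G), ∀ y ∈ P', s * y * s⁻¹ ∈ P' := by
    rintro s hs _ ⟨p, hp, rfl⟩
    refine mem_map.2 ⟨_, (mem_normalizer_iff.1 (hg s hs) p).1 hp, ?_⟩
    change g * (g⁻¹ * s * g * p * (g⁻¹ * s * g)⁻¹) * g⁻¹ = s * (g * p * g⁻¹) * s⁻¹
    group
  have hSn : (S : Subgroup G) ≤ normalizer (P' : Set G) := fun s hs => mem_norm_of (hnorm s hs)
  have hP'p : IsPGroup 2 P' := (S.2.to_le hPS).map _
  have hP'S : P' ≤ S := by
    have h1 : IsPGroup 2 ((S : Subgroup G) ⊔ P' : Subgroup G) := S.2.to_sup_of_normal_right' hP'p hSn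
    have h2 := S.3 h1 le_sup_left
    rw [← h2]; exact le_sup_right
  refine ⟨P'.subgroupOf S, (normal_subgroupOf_iff_le_normalizer hP'S).2 hSn, ⟨?_⟩⟩
  exact (H.equivMapOfInjective _ (S : Subgroup G).subtype_injective).trans
    ((P.equivMapOfInjective (MulAut.conj g : G →* G) (MulAut.conj g).injective).trans
      (subgroupOfEquivOfLe hP'S).symm)

lemma PropN.congr {X : Type u} {Y : Type} [Group X] [Group Y] (e : X ≃* Y) (h : PropN X) :
    PropN Y := by
  intro H
  obtain ⟨Q, hQ, ⟨f⟩⟩ := h (H.map (e.symm : Y →* X))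
  refine ⟨Q.map (e : X →* Y), hQ.map _ e.surjective, ⟨?_⟩⟩
  exact (H.equivMapOfInjective _ e.symm.injective).trans
    (f.trans (Q.equivMapOfInjective _ e.injective))

lemma two_mul_eq_zero {k : ℕ} (i : ZMod (2 ^ (k + 1))) (h : i + i = 0) :
    i = 0 ∨ i = ((2 ^ k : ℕ) : ZMod (2 ^ (k + 1))) := by
  have hv : ((2 * i.val : ℕ) : ZMod (2 ^ (k + 1))) = 0 := by
    push_cast
    rw [ZMod.natCast_zmod_val]; linear_combination h
  rw [ZMod.natCast_eq_zero_iff] at hv
  have hv2 : 2 * 2 ^ k ∣ 2 * i.val := by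
    rw [← pow_succ']; exact hv
  have hlt := ZMod.val_lt i
  obtain ⟨c, hc⟩ := (Nat.mul_dvd_mul_iff_left two_pos).1 hv2
  have hc2 : c < 2 := by
    rw [hc, pow_succ] at hlt
    exact Nat.lt_of_mul_lt_mul_left hlt
  interval_cases c
  · left; rw [← ZMod.natCast_zmod_val i, hc]; simp
  · right; rw [← ZMod.natCast_zmod_val i, hc]; simp

lemma not_propN_dihedral {k : ℕ} (hk : 3 ≤ k) : ¬ PropN (DihedralGroup (2 ^ k)) := by
  obtain ⟨l, rfl⟩ : ∃ l, k = l + 1 := ⟨k - 1, by omega⟩
  intro hN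
  set m : ZMod (2 ^ (l + 1)) := ((2 ^ l : ℕ) : ZMod (2 ^ (l + 1))) with hm
  have hmm : m + m = 0 := by
    rw [hm, ← Nat.cast_add, ZMod.natCast_eq_zero_iff, pow_succ]
    exact ⟨1, by ring⟩
  have hneg : -m = m := by linear_combination -hmm
  let H : Subgroup (DihedralGroup (2 ^ (l + 1))) :=
    { carrier := {x | x = .r 0 ∨ x = .r m ∨ x = .sr 0 ∨ x = .sr m}
      one_mem' := Or.inl rfl
      mul_mem' := by
        rintro x y (rfl | rfl | rfl | rfl) (rfl | rfl | rfl | rfl) <;>
          simp [hmm, hneg, DihedralGroup.r_mul_r, DihedralGroup.r_mul_sr, DihedralGroup.sr_mul_r,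
            DihedralGroup.sr_mul_sr]
      inv_mem' := by
        rintro x (rfl | rfl | rfl | rfl) <;> simp [hneg, -DihedralGroup.r_zero] }
  obtain ⟨Q, hQ, ⟨f⟩⟩ := hN H
  have hHsq : ∀ x : H, x * x = 1 := by
    rintro ⟨x, rfl | rfl | rfl | rfl⟩ <;> apply Subtype.ext <;>
      simp [hmm, DihedralGroup.r_mul_r, DihedralGroup.sr_mul_sr, -DihedralGroup.r_zero] <;>
      exact DihedralGroup.r_zero
  have hQsq : ∀ x ∈ Q, x * x = 1 := by
    intro x hx
    have h1 := hHsq (f.symm ⟨x, hx⟩)
    rw [← map_mul, map_eq_one_iff f.symm f.symm.injective] at h1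
    exact congrArg Subtype.val h1
  by_cases hsr : ∃ i, DihedralGroup.sr i ∈ Q
  · obtain ⟨i, hi⟩ := hsr
    have h1 := hQ.conj_mem _ hi (DihedralGroup.r 1)
    have h2 := Q.mul_mem hi h1
    have h3 := hQsq _ h2
    simp only [DihedralGroup.inv_r, DihedralGroup.r_mul_sr, DihedralGroup.sr_mul_r,
      DihedralGroup.sr_mul_sr, DihedralGroup.r_mul_r, DihedralGroup.one_def,
      DihedralGroup.r.injEq] at h3
    have h4 : ((4 : ℕ) : ZMod (2 ^ (l + 1))) = 0 := by push_cast; linear_combination -h3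
    rw [ZMod.natCast_eq_zero_iff] at h4
    have h5 := Nat.le_of_dvd (by norm_num) h4
    have h6 : 2 ^ 3 ≤ 2 ^ (l + 1) := Nat.pow_le_pow_right (by norm_num) hk
    omega
  · push Not at hsr
    have hrot : ∀ x ∈ Q, x = 1 ∨ x = .r m := by
      intro x hx
      rcases x with i | i
      · have h1 := hQsq _ hx
        rw [DihedralGroup.r_mul_r, DihedralGroup.one_def, DihedralGroup.r.injEq] at h1
        rcases two_mul_eq_zero i h1 with h | h
        · left; rw [h]; rfl
        · right; rw [h]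
      · exact absurd hx (hsr i)
    let u : H := ⟨.sr 0, Or.inr (Or.inr (Or.inl rfl))⟩
    let v : H := ⟨.sr m, Or.inr (Or.inr (Or.inr rfl))⟩
    have hu : u ≠ 1 := by
      intro h
      have : DihedralGroup.sr (0 : ZMod (2 ^ (l + 1))) = DihedralGroup.r 0 := congrArg Subtype.val h
      exact nomatch this
    have hv : v ≠ 1 := by
      intro h
      have : DihedralGroup.sr m = DihedralGroup.r 0 := congrArg Subtype.val h
      exact nomatch this
    have huv : u ≠ v := by
      intro h; have := congrArg Subtype.val h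
      simp only [u, v, DihedralGroup.sr.injEq] at this
      rw [hm, eq_comm, ZMod.natCast_eq_zero_iff] at this
      have h5 := Nat.le_of_dvd (by positivity) this
      rw [pow_succ] at h5
      have : 0 < 2 ^ l := by positivity
      omega
    have e1 : ∀ x : H, x ≠ 1 → ((f x : Q) : DihedralGroup (2 ^ (l + 1))) = .r m := by
      intro x hx
      rcases hrot _ (f x).2 with h | h
      · exfalso; apply hx
        have : f x = 1 := Subtype.ext h
        rwa [map_eq_one_iff f f.injective] at this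
      · exact h
    exact huv (f.injective (Subtype.ext ((e1 u hu).trans (e1 v hv).symm)))

lemma not_propN_quaternion {k : ℕ} (hk : 3 ≤ k) : ¬ PropN (QuaternionGroup (2 ^ k)) := by
  intro hN
  set n : ℕ := 2 ^ k with hn
  have h8 : 2 ^ 3 ≤ n := Nat.pow_le_pow_right (by norm_num) hk
  have hnn : (n : ZMod (2 * n)) + n = 0 := by
    rw [← Nat.cast_add, ZMod.natCast_eq_zero_iff]; exact ⟨1, by ring⟩
  obtain ⟨c, hc⟩ : ∃ c : ℕ, n = 2 * c := ⟨2 ^ (k - 1), by rw [hn, ← pow_succ']; congr 1; omega⟩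
  let H : Subgroup (QuaternionGroup n) :=
    { carrier := {x | (∃ i, 4 * i = 0 ∧ x = .a i) ∨ ∃ i, 4 * i = 0 ∧ x = .xa i}
      one_mem' := Or.inl ⟨0, by simp, rfl⟩
      mul_mem' := by
        rintro x y (⟨i, hi, rfl⟩ | ⟨i, hi, rfl⟩) (⟨j, hj, rfl⟩ | ⟨j, hj, rfl⟩)
        · exact Or.inl ⟨_, by linear_combination hi + hj, QuaternionGroup.a_mul_a _ _⟩
        · exact Or.inr ⟨_, by linear_combination hj - hi, QuaternionGroup.a_mul_xa _ _⟩
        · exact Or.inr ⟨_, by linear_combination hi + hj, QuaternionGroup.xa_mul_a _ _⟩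
        · exact Or.inl ⟨_, by linear_combination hj - hi + 2 * hnn, QuaternionGroup.xa_mul_xa _ _⟩
      inv_mem' := by
        rintro x (⟨i, hi, rfl⟩ | ⟨i, hi, rfl⟩)
        · refine Or.inl ⟨-i, by linear_combination -hi, ?_⟩
          rw [inv_eq_iff_mul_eq_one, QuaternionGroup.a_mul_a]; simp
        · refine Or.inr ⟨n + i, by linear_combination hi + 2 * hnn, ?_⟩
          rw [inv_eq_iff_mul_eq_one, QuaternionGroup.xa_mul_xa, QuaternionGroup.one_def]
          congr 1; linear_combination hnn }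
  obtain ⟨Q, hQ, ⟨f⟩⟩ := hN H
  have hH4 : ∀ x : H, x * x * x * x = 1 := by
    rintro ⟨x, ⟨i, hi, rfl⟩ | ⟨i, hi, rfl⟩⟩ <;> apply Subtype.ext
    · change QuaternionGroup.a i * .a i * .a i * .a i = 1
      rw [QuaternionGroup.a_mul_a, QuaternionGroup.a_mul_a, QuaternionGroup.a_mul_a,
        QuaternionGroup.one_def]
      congr 1; linear_combination hi
    · change QuaternionGroup.xa i * .xa i * .xa i * .xa i = 1
      rw [QuaternionGroup.xa_mul_xa, QuaternionGroup.a_mul_xa, QuaternionGroup.xa_mul_xa,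
        QuaternionGroup.one_def]
      congr 1; linear_combination hnn
  have hQ4 : ∀ x ∈ Q, x * x * x * x = 1 := by
    intro x hx
    have h1 := hH4 (f.symm ⟨x, hx⟩)
    rw [← map_mul, ← map_mul, ← map_mul, map_eq_one_iff f.symm f.symm.injective] at h1
    exact congrArg Subtype.val h1
  by_cases hsr : ∃ i, QuaternionGroup.xa i ∈ Q
  · obtain ⟨i, hi⟩ := hsr
    have h1 := hQ.conj_mem _ hi (QuaternionGroup.a 1)
    have hinv : (QuaternionGroup.a 1 : QuaternionGroup n)⁻¹ = QuaternionGroup.a (-1) := by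
      rw [inv_eq_iff_mul_eq_one, QuaternionGroup.a_mul_a]; simp
    have h2 := Q.mul_mem hi h1
    have h3 := hQ4 _ h2
    rw [hinv, QuaternionGroup.a_mul_xa, QuaternionGroup.xa_mul_a, QuaternionGroup.xa_mul_xa,
      QuaternionGroup.a_mul_a, QuaternionGroup.a_mul_a, QuaternionGroup.a_mul_a,
      QuaternionGroup.one_def, QuaternionGroup.a.injEq] at h3
    have h4 : ((8 : ℕ) : ZMod (2 * n)) = 0 := by push_cast; linear_combination -h3 + 2 * hnn
    rw [ZMod.natCast_eq_zero_iff] at h4
    have h5 := Nat.le_of_dvd (by norm_num) h4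
    omega
  · push Not at hsr
    have hcomm : ∀ x y : Q, x * y = y * x := by
      rintro ⟨x, hx⟩ ⟨y, hy⟩
      rcases x with i | i
      · rcases y with j | j
        · apply Subtype.ext
          change QuaternionGroup.a i * .a j = .a j * .a i
          rw [QuaternionGroup.a_mul_a, QuaternionGroup.a_mul_a, add_comm]
        · exact absurd hy (hsr j)
      · exact absurd hx (hsr i)
    let u : H := ⟨.a c, Or.inl ⟨c, by
      have : ((4 * c : ℕ) : ZMod (2 * n)) = 0 := by
        rw [ZMod.natCast_eq_zero_iff]; exact ⟨1, by omega⟩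
      exact_mod_cast this, rfl⟩⟩
    let v : H := ⟨.xa 0, Or.inr ⟨0, by simp, rfl⟩⟩
    have huv : u * v = v * u := by
      apply f.injective
      rw [map_mul, map_mul, hcomm]
    have h1 : QuaternionGroup.a (c : ZMod (2 * n)) * .xa 0 = .xa 0 * .a c :=
      congrArg Subtype.val huv
    rw [QuaternionGroup.a_mul_xa, QuaternionGroup.xa_mul_a, QuaternionGroup.xa.injEq] at h1
    have h2 : ((n : ℕ) : ZMod (2 * n)) = 0 := by
      have h3 : ((2 * c : ℕ) : ZMod (2 * n)) = 0 := by push_cast; linear_combination -h1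
      rwa [← hc] at h3
    rw [ZMod.natCast_eq_zero_iff] at h2
    have h5 := Nat.le_of_dvd (by omega) h2
    omega

omit [Finite G] in
lemma mem_zpowers_two {t y : G} (ht : orderOf t = 2) (hy : y ∈ zpowers t) : y = 1 ∨ y = t := by
  obtain ⟨k, rfl⟩ := mem_zpowers_iff.1 hy
  have h2 : t ^ (2 : ℤ) = 1 := by
    have := pow_orderOf_eq_one t
    rw [ht] at this; exact_mod_cast this
  rcases Int.even_or_odd' k with ⟨i, hi | hi⟩
  · left; rw [hi, zpow_mul, h2, one_zpow]
  · right; rw [hi, zpow_add, zpow_mul, h2, one_zpow, one_mul, zpow_one]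

/-- in a group with property (O), every nontrivial 2-element has a conjugate generating a normal
subgroup of the Sylow subgroup -/
lemma exists_elt (hO : PropO G) (S : Sylow 2 G) {t : G} (ht : IsPGroup 2 (zpowers t)) (ht1 : t ≠ 1) :
    ∃ g : G, g * t * g⁻¹ ∈ (S : Subgroup G) ∧
      ∀ s ∈ (S : Subgroup G), s * (g * t * g⁻¹) * s⁻¹ ∈ zpowers (g * t * g⁻¹) := by
  obtain ⟨g, hg⟩ := conj_le S.2 (hO (zpowers t) ht (by rwa [Ne, zpowers_eq_bot]))
  have hmap : (zpowers t).map (MulAut.conj g : G →* G) = zpowers (g * t * g⁻¹) := by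
    rw [MonoidHom.map_zpowers]; rfl
  have hn : ∀ s ∈ (S : Subgroup G), ∀ y ∈ zpowers (g * t * g⁻¹), s * y * s⁻¹ ∈ zpowers (g * t * g⁻¹) := by
    intro s hs y hy
    rw [← hmap] at hy ⊢
    obtain ⟨p, hp, rfl⟩ := mem_map.1 hy
    refine mem_map.2 ⟨_, (mem_normalizer_iff.1 (hg s hs) p).1 hp, ?_⟩
    change g * (g⁻¹ * s * g * p * (g⁻¹ * s * g)⁻¹) * g⁻¹ = s * (g * p * g⁻¹) * s⁻¹
    group
  refine ⟨g, ?_, fun s hs => hn s hs _ (mem_zpowers _)⟩
  have hSn : (S : Subgroup G) ≤ normalizer (zpowers (g * t * g⁻¹) : Set G) :=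
    fun s hs => mem_norm_of (hn s hs)
  have hp : IsPGroup 2 (zpowers (g * t * g⁻¹)) := by rw [← hmap]; exact ht.map _
  have h1 : IsPGroup 2 ((S : Subgroup G) ⊔ zpowers (g * t * g⁻¹) : Subgroup G) :=
    S.2.to_sup_of_normal_right' hp hSn
  have h2 := S.3 h1 le_sup_left
  rw [← SetLike.mem_coe, ← h2]
  exact (le_sup_right : zpowers (g * t * g⁻¹) ≤ (S : Subgroup G) ⊔ _) (mem_zpowers _)

lemma isPGroup_zpowers {t : G} {k : ℕ} (h : orderOf t = 2 ^ k) : IsPGroup 2 (zpowers t) := by
  rw [IsPGroup.iff_card]; exact ⟨k, by rw [Nat.card_zpowers, h]⟩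

lemma norm_of_index (S : Sylow 2 G) {P : Subgroup G} (hP : P ≤ S)
    (h : Nat.card (S : Subgroup G) ≤ 2 * Nat.card P) :
    ∃ g : G, ∀ s ∈ (S : Subgroup G), g⁻¹ * s * g ∈ normalizer (P : Set G) := by
  refine ⟨1, fun s hs => ?_⟩
  have h1 : (P.subgroupOf S).Normal := by
    have h2 := (P.subgroupOf S).card_mul_index
    rw [Nat.card_congr (subgroupOfEquivOfLe hP).toEquiv] at h2
    have h3 : 0 < Nat.card P := Nat.card_pos
    have h4 : (P.subgroupOf S).index ≠ 0 := index_ne_zero_of_finite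
    have h5 : (P.subgroupOf S).index ≤ 2 := by
      by_contra hcon
      push Not at hcon
      have : Nat.card P * 3 ≤ Nat.card P * (P.subgroupOf S).index := Nat.mul_le_mul_left _ hcon
      omega
    have h6 : (P.subgroupOf S).index = 1 ∨ (P.subgroupOf S).index = 2 := by omega
    rcases h6 with h6 | h6
    · rw [index_eq_one] at h6
      rw [h6]; infer_instance
    · exact normal_of_index_eq_two h6
  have := (normal_subgroupOf_iff_le_normalizer hP).1 h1 hs
  simpa using this

lemma order8 (S : Sylow 2 G) (h8 : Nat.card S = 8) (hna : ¬ ∀ x y : S, x * y = y * x) :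
    PropO G ↔ ∀ s t : G, orderOf s = 2 → orderOf t = 2 → IsConj s t := by
  have hZ : Nat.card (center S) = 2 := by
    have h1 : Nat.card (center S) ∣ 8 := by rw [← h8]; exact card_subgroup_dvd_card _
    have hnt : Nontrivial S := by
      rw [← Finite.one_lt_card_iff_nontrivial, h8]; norm_num
    have h2 : Nontrivial (center S) := S.2.center_nontrivial
    have h3 : 1 < Nat.card (center S) := Finite.one_lt_card_iff_nontrivial.2 h2
    have h4 : Nat.card (center S) ≠ 8 := by
      intro h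
      apply hna
      have : center S = ⊤ := eq_top_of_card_eq _ (by rw [h, h8])
      intro x y
      have hx : x ∈ center S := by rw [this]; exact mem_top _
      exact ((mem_center_iff.1 hx) y).symm
    have h5 : Nat.card (center S) ≠ 4 := by
      intro h
      apply hna
      have h6 := (center S).card_mul_index
      rw [h, h8] at h6
      have h7 : Nat.card (S ⧸ center S) = 2 := by rw [← Subgroup.index_eq_card]; omega
      have : IsCyclic (S ⧸ center S) := isCyclic_of_prime_card h7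
      have hcomm := MonoidHom.isMulCommutative_of_isCyclic_of_ker_le_center
        (QuotientGroup.mk' (center S)) (by rw [QuotientGroup.ker_mk'])
      exact fun x y => hcomm.is_comm.comm x y
    have h9 : Nat.card (center S) ∈ Nat.divisors 8 := Nat.mem_divisors.2 ⟨h1, by norm_num⟩
    have h10 : Nat.divisors 8 = {1, 2, 4, 8} := by decide
    rw [h10] at h9
    simp only [Finset.mem_insert, Finset.mem_singleton] at h9
    omega
  obtain ⟨z, hz1, hz2⟩ := (Nat.card_eq_two_iff' (1 : center S)).1 hZ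
  set z' : G := ((z : S) : G) with hz'
  have hz'c : ∀ s ∈ (S : Subgroup G), s * z' = z' * s := fun s hs =>
    congrArg Subtype.val ((mem_center_iff.1 z.2) ⟨s, hs⟩)
  have hz'o : orderOf z' = 2 := by
    have h1 : z ^ Nat.card (center S) = 1 := pow_card_eq_one'
    rw [hZ] at h1
    have h2 : z' ^ 2 = 1 := congrArg (fun x : center S => ((x : S) : G)) h1
    rw [orderOf_eq_prime_iff]
    refine ⟨h2, fun h => hz1 ?_⟩
    apply Subtype.ext; apply Subtype.ext; exact h
  constructor
  · intro hO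
    have key : ∀ t : G, orderOf t = 2 → IsConj t z' := by
      intro t ht
      have ht1 : t ≠ 1 := by rintro rfl; rw [orderOf_one] at ht; omega
      obtain ⟨g, hg1, hg2⟩ := exists_elt hO S (isPGroup_zpowers (k := 1) (by rw [ht, pow_one])) ht1
      have ho : orderOf (g * t * g⁻¹) = 2 := by
        rw [← ht]; exact (MulAut.conj g).orderOf_eq t
      have hne : g * t * g⁻¹ ≠ 1 := by intro h; rw [h, orderOf_one] at ho; omega
      have hcen : (⟨g * t * g⁻¹, hg1⟩ : S) ∈ center S := by
        refine mem_center_iff.2 ?_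
        rintro ⟨s, hs⟩
        apply Subtype.ext
        change s * (g * t * g⁻¹) = g * t * g⁻¹ * s
        rcases mem_zpowers_two ho (hg2 s hs) with h | h
        · exfalso; apply hne
          have h3 : s * (g * t * g⁻¹) = s := by
            rw [mul_inv_eq_one] at h; exact h
          simpa using h3
        · rwa [mul_inv_eq_iff_eq_mul] at h
      have h4 := hz2 ⟨_, hcen⟩ (fun h => hne (congrArg (fun x : center S => ((x : S) : G)) h))
      rw [isConj_iff]
      exact ⟨g, congrArg (fun x : center S => ((x : S) : G)) h4⟩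
    intro s t hs ht
    exact (key s hs).trans (key t ht).symm
  · intro hc
    rw [propO_iff S]
    intro P hP hP1
    have h1 : Nat.card P ∣ 8 := by rw [← h8]; exact card_dvd_of_le hP
    have h9 : Nat.card P ∈ Nat.divisors 8 := Nat.mem_divisors.2 ⟨h1, by norm_num⟩
    have h10 : Nat.divisors 8 = {1, 2, 4, 8} := by decide
    rw [h10] at h9
    simp only [Finset.mem_insert, Finset.mem_singleton] at h9
    have h11 : Nat.card P ≠ 1 := fun h => hP1 (P.card_eq_one.1 h)
    by_cases h4 : 4 ≤ Nat.card P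
    · exact norm_of_index S hP (by rw [h8]; omega)
    · have h2 : Nat.card P = 2 := by omega
      obtain ⟨t, ht1, ht2⟩ := (Nat.card_eq_two_iff' (1 : P)).1 h2
      have hto : orderOf (t : G) = 2 := by
        have h1 : t ^ Nat.card P = 1 := pow_card_eq_one'
        rw [h2] at h1
        rw [orderOf_eq_prime_iff]
        exact ⟨congrArg Subtype.val h1, fun h => ht1 (Subtype.ext h)⟩
      obtain ⟨c, hcc⟩ := isConj_iff.1 (hc t z' hto hz'o)
      refine ⟨c, fun s hs => mem_norm_of fun p hp => ?_⟩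
      by_cases hp1 : p = 1
      · subst hp1; simp
      · have hpt : p = t := congrArg Subtype.val (ht2 ⟨p, hp⟩ (fun h => hp1 (congrArg Subtype.val h)))
        have e : c⁻¹ * s * c * p * (c⁻¹ * s * c)⁻¹ = p := by
          have h5 : c⁻¹ * s * c * p * (c⁻¹ * s * c)⁻¹ = c⁻¹ * (s * (c * p * c⁻¹) * s⁻¹) * c := by group
          rw [h5, hpt, hcc, hz'c s hs, mul_inv_cancel_right, ← hcc]; group
        rw [e]; exact hp

lemma quat_facts : (∀ x : QuaternionGroup 4, x * x = 1 → x = 1 ∨ x = .a 4) ∧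
    (∀ x : QuaternionGroup 4, x * x * (x * x) = 1 → x = 1 ∨ x = .a 4 ∨ x * x = .a 4) ∧
    (∀ x : QuaternionGroup 4, .a 4 * x = x * .a 4) ∧
    (∀ x : QuaternionGroup 4, x * .a 2 * x⁻¹ = .a 2 ∨ x * .a 2 * x⁻¹ = .a 6) ∧
    (∀ x : QuaternionGroup 4, x * x = .a 4 →
      (∀ s, s * x * s⁻¹ = x ∨ s * x * s⁻¹ = x * x * x) → x = .a 2 ∨ x = .a 6) := by
  decide +kernel

omit [Finite G] in
lemma four_eq {X : Type*} [Group X] (x : X) : x * x * (x * x) = x ^ 4 := by
  simp only [pow_succ, pow_zero, one_mul, mul_assoc]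

lemma mem_zpowers_four {t y : G} (ht : orderOf t = 4) (hy : y ∈ zpowers t) :
    y = 1 ∨ y = t ∨ y = t * t ∨ y = t * t * t := by
  classical
  obtain ⟨k, hk⟩ := (mem_zpowers_iff_mem_range_orderOf (x := t) (y := y)).1 hy |> Finset.mem_image.1
  rw [ht, Finset.mem_range] at hk
  obtain ⟨hk1, rfl⟩ := hk
  interval_cases k
  · left; simp
  · right; left; simp
  · right; right; left; rw [pow_two]
  · right; right; right; rw [pow_succ, pow_two]

lemma quat16 (S : Sylow 2 G) (e : S ≃* QuaternionGroup 4) :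
    PropO G ↔ ∀ x y : G, orderOf x = 4 → orderOf y = 4 → ∃ g : G, g * x * g⁻¹ ∈ zpowers y := by
  obtain ⟨q1, q2, q3, q4, q5⟩ := quat_facts
  have hcard : Nat.card (S : Subgroup G) = 16 := by
    rw [Nat.card_congr e.toEquiv, Nat.card_eq_fintype_card, QuaternionGroup.card]
  set b : S := e.symm (.a 2) with hb
  have heb : e b = .a 2 := e.apply_symm_apply _
  have hb4 : orderOf b = 4 := by
    rw [← MulEquiv.orderOf_eq e b, heb]
    have h1 : (QuaternionGroup.a 2 : QuaternionGroup 4) ^ 2 ^ 2 = 1 := by decide +kernel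
    have h2 : ¬ (QuaternionGroup.a 2 : QuaternionGroup 4) ^ 2 ^ 1 = 1 := by decide +kernel
    exact orderOf_eq_prime_pow h2 h1
  have hbG : orderOf (b : G) = 4 := by rw [← hb4]; exact orderOf_coe b
  have hbn : ∀ s : S, s * b * s⁻¹ ∈ zpowers b := by
    intro s
    have h1 := q4 (e s)
    rw [← heb, ← map_inv, ← map_mul, ← map_mul] at h1
    rcases h1 with h1 | h1
    · rw [e.injective h1]; exact mem_zpowers b
    · have h2 : (QuaternionGroup.a 6 : QuaternionGroup 4) = e (b * b * b) := by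
        rw [map_mul, map_mul, heb]; decide +kernel
      rw [h2] at h1
      rw [e.injective h1]
      exact mul_mem (mul_mem (mem_zpowers b) (mem_zpowers b)) (mem_zpowers b)
  constructor
  · intro hO
    have key : ∀ t : G, orderOf t = 4 → ∃ g : G, g * t * g⁻¹ ∈ zpowers (b : G) ∧
        (b : G) ∈ zpowers (g * t * g⁻¹) := by
      intro t ht
      have ht1 : t ≠ 1 := by rintro rfl; rw [orderOf_one] at ht; omega
      obtain ⟨g, hg1, hg2⟩ := exists_elt hO S (isPGroup_zpowers (k := 2) (by rw [ht]; norm_num)) ht1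
      refine ⟨g, ?_⟩
      have ho : orderOf (g * t * g⁻¹) = 4 := by
        rw [← ht]; exact (MulAut.conj g).orderOf_eq t
      set t1 := g * t * g⁻¹ with ht1'
      set u : S := ⟨t1, hg1⟩ with hu
      have huo : orderOf u = 4 := by rw [← ho]; exact (orderOf_coe u).symm
      have hvo : orderOf (e u) = 4 := (MulEquiv.orderOf_eq e u).trans huo
      have hv4 : e u * e u * (e u * e u) = 1 := by
        have h1 := pow_orderOf_eq_one (e u)
        rw [hvo] at h1
        rw [four_eq, h1]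
      have hvv : e u * e u = .a 4 := by
        rcases q2 _ hv4 with h | h | h
        · rw [h, orderOf_one] at hvo; omega
        · exfalso
          have h3 : (e u) ^ 2 = 1 := by rw [h]; decide +kernel
          have h4 := orderOf_dvd_of_pow_eq_one h3
          rw [hvo] at h4; omega
        · exact h
      have hconj : ∀ s, s * e u * s⁻¹ = e u ∨ s * e u * s⁻¹ = e u * e u * e u := by
        intro s
        have h1 := hg2 (e.symm s) (e.symm s).2
        have h2 : orderOf ((e.symm s : G) * t1 * (e.symm s : G)⁻¹) = 4 :=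
          ((MulAut.conj (e.symm s : G)).orderOf_eq t1).trans ho
        have hs : s = e (e.symm s) := (e.apply_symm_apply s).symm
        have tr : ∀ w : S, (e.symm s : G) * t1 * (e.symm s : G)⁻¹ = (w : G) →
            s * e u * s⁻¹ = e w := by
          intro w hw
          have h5 : e.symm s * u * (e.symm s)⁻¹ = w := Subtype.ext hw
          rw [← h5, map_mul, map_mul, map_inv, e.apply_symm_apply]
        rcases mem_zpowers_four ho h1 with h | h | h | h
        · rw [h, orderOf_one] at h2; omega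
        · left; exact tr u h
        · exfalso
          rw [h, ← pow_two] at h2
          have h3 : (t1 ^ 2) ^ 2 = 1 := by
            rw [← pow_mul]; have := pow_orderOf_eq_one t1; rwa [ho] at this
          have h4 := orderOf_dvd_of_pow_eq_one h3
          rw [h2] at h4; omega
        · right
          rw [tr (u * u * u) h, map_mul, map_mul]
      rcases q5 _ hvv hconj with h | h
      · have h1 : u = b := by rw [hb, ← h, e.symm_apply_apply]
        have h2 : t1 = (b : G) := congrArg Subtype.val h1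
        rw [h2]; exact ⟨mem_zpowers _, mem_zpowers _⟩
      · have h1 : u = b * b * b := by
          apply e.injective
          rw [h, map_mul, map_mul, heb]; decide +kernel
        have h1' : b = u * u * u := by
          apply e.injective
          rw [map_mul, map_mul, heb, h]; decide +kernel
        have h2 : t1 = (b : G) * b * b := congrArg Subtype.val h1
        have h2' : (b : G) = t1 * t1 * t1 := congrArg Subtype.val h1'
        constructor
        · rw [h2]; exact mul_mem (mul_mem (mem_zpowers _) (mem_zpowers _)) (mem_zpowers _)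
        · nth_rewrite 1 [h2']
          exact mul_mem (mul_mem (mem_zpowers _) (mem_zpowers _)) (mem_zpowers _)
    intro x y hx hy
    obtain ⟨g, hg1, -⟩ := key x hx
    obtain ⟨h, -, hh⟩ := key y hy
    refine ⟨h⁻¹ * g, ?_⟩
    have h1 : g * x * g⁻¹ ∈ zpowers (h * y * h⁻¹) := (zpowers_le.2 hh) hg1
    have hmap : (zpowers y).map (MulAut.conj h : G →* G) = zpowers (h * y * h⁻¹) := by
      rw [MonoidHom.map_zpowers]; rfl
    rw [← hmap] at h1
    obtain ⟨w, hw, hw2⟩ := mem_map.1 h1
    have h3 : h * w * h⁻¹ = g * x * g⁻¹ := hw2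
    have h4 : h⁻¹ * g * x * (h⁻¹ * g)⁻¹ = w := by
      have h5 : h⁻¹ * g * x * (h⁻¹ * g)⁻¹ = h⁻¹ * (g * x * g⁻¹) * h := by group
      rw [h5, ← h3]; group
    rw [h4]; exact hw
  · intro hc
    rw [propO_iff S]
    intro P hP hP1
    have h1 : Nat.card P ∣ 16 := by rw [← hcard]; exact card_dvd_of_le hP
    have h9 : Nat.card P ∈ Nat.divisors 16 := Nat.mem_divisors.2 ⟨h1, by norm_num⟩
    have h10 : Nat.divisors 16 = {1, 2, 4, 8, 16} := by decide
    rw [h10] at h9
    simp only [Finset.mem_insert, Finset.mem_singleton] at h9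
    have h11 : Nat.card P ≠ 1 := fun h => hP1 (P.card_eq_one.1 h)
    by_cases h8 : 8 ≤ Nat.card P
    · exact norm_of_index S hP (by rw [hcard]; omega)
    have hpow : ∀ x ∈ P, x * x * (x * x) = 1 := by
      intro x hx
      have h2 : (⟨x, hx⟩ : P) ^ Nat.card P = 1 := pow_card_eq_one'
      have h3 : (⟨x, hx⟩ : P) ^ 4 = 1 := by
        have h4 : Nat.card P ∣ 4 := by
          rcases h9 with h | h | h | h | h <;> rw [h] at h8 ⊢ <;> omega
        obtain ⟨c, hc⟩ := h4
        rw [hc, pow_mul, h2, one_pow]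
      have h4 : x ^ 4 = 1 := congrArg Subtype.val h3
      rw [four_eq, h4]
    by_cases hsq : ∃ x ∈ P, x * x ≠ 1
    · obtain ⟨x, hx, hxx⟩ := hsq
      have hx4 : orderOf x = 4 := by
        apply orderOf_eq_prime_pow (p := 2) (n := 1)
        · rw [pow_one, pow_two]; exact hxx
        · have := hpow x hx
          rw [four_eq] at this; exact this
      have hPx : zpowers x = P := by
        apply Subgroup.eq_of_le_of_card_ge (zpowers_le.2 hx)
        rw [Nat.card_zpowers, hx4]; omega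
      obtain ⟨g, hg⟩ := hc x b hx4 hbG
      have hgx : zpowers (g * x * g⁻¹) = zpowers (b : G) := by
        apply Subgroup.eq_of_le_of_card_ge (zpowers_le.2 hg)
        rw [Nat.card_zpowers, Nat.card_zpowers, hbG]
        have : orderOf (g * x * g⁻¹) = orderOf x := (MulAut.conj g).orderOf_eq x
        rw [this, hx4]
      have hmap : (zpowers x).map (MulAut.conj g : G →* G) = zpowers (g * x * g⁻¹) := by
        rw [MonoidHom.map_zpowers]; rfl
      refine ⟨g, fun s hs => mem_norm_of fun p hp => ?_⟩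
      rw [← hPx] at hp ⊢
      have h2 : g * p * g⁻¹ ∈ zpowers (b : G) := by
        rw [← hgx, ← hmap]; exact mem_map_of_mem _ hp
      have h3 : s * (g * p * g⁻¹) * s⁻¹ ∈ zpowers (b : G) := by
        obtain ⟨k, hk⟩ := mem_zpowers_iff.1 h2
        rw [← hk, ← conj_zpow]
        apply zpow_mem
        obtain ⟨j, hj⟩ := mem_zpowers_iff.1 (hbn ⟨s, hs⟩)
        exact mem_zpowers_iff.2 ⟨j, congrArg Subtype.val hj⟩
      rw [← hgx, ← hmap] at h3
      obtain ⟨w, hw, hw2⟩ := mem_map.1 h3
      have h4 : g * w * g⁻¹ = s * (g * p * g⁻¹) * s⁻¹ := hw2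
      have h5 : g⁻¹ * s * g * p * (g⁻¹ * s * g)⁻¹ = w := by
        have h6 : g⁻¹ * s * g * p * (g⁻¹ * s * g)⁻¹ = g⁻¹ * (s * (g * p * g⁻¹) * s⁻¹) * g := by group
        rw [h6, ← h4]; group
      rw [h5]; exact hw
    · push Not at hsq
      refine ⟨1, fun s hs => mem_norm_of fun p hp => ?_⟩
      have h2 : e ⟨p, hP hp⟩ * e ⟨p, hP hp⟩ = 1 := by
        rw [← map_mul, map_eq_one_iff e e.injective]
        exact Subtype.ext (hsq p hp)
      have h3 : (⟨s, hs⟩ : S) * ⟨p, hP hp⟩ = ⟨p, hP hp⟩ * ⟨s, hs⟩ := by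
        apply e.injective
        rw [map_mul, map_mul]
        rcases q1 _ h2 with h | h
        · rw [h, mul_one, one_mul]
        · rw [h, q3]
      have h4 : s * p = p * s := congrArg Subtype.val h3
      have h5 : 1⁻¹ * s * 1 * p * (1⁻¹ * s * 1)⁻¹ = p := by
        simp [h4]
      rw [h5]; exact hp

end types

/-- semidihedral groups of order `2 ^ n`, `n ≥ 4` -/
def IsSemidihedral (S : Type u) [Group S] : Prop :=
  ∃ n : ℕ, 4 ≤ n ∧ Nat.card S = 2 ^ n ∧ ∃ r s : S, orderOf r = 2 ^ (n - 1) ∧ orderOf s = 2 ∧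
    s ∉ zpowers r ∧ s * r * s⁻¹ = r ^ (2 ^ (n - 2) - 1)

lemma not_propN_semidihedral {X : Type u} [Group X] [Finite X] (h : IsSemidihedral X) :
    ¬ PropN X := by
  obtain ⟨n, hn, hcard, r, s, hr, hs, hsr, hrel⟩ := h
  obtain ⟨m, rfl⟩ : ∃ m, n = m + 4 := ⟨n - 4, by omega⟩
  have e1 : m + 4 - 1 = m + 3 := by omega
  have e2 : m + 4 - 2 = m + 2 := by omega
  rw [e1] at hr
  rw [e2] at hrel
  intro hN
  have hpos : 4 ≤ 2 ^ (m + 2) := by
    calc 4 = 2 ^ 2 := by norm_num
      _ ≤ 2 ^ (m + 2) := Nat.pow_le_pow_right (by norm_num) (by omega)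
  have hidx : (zpowers r).index = 2 := by
    have h1 := (zpowers r).card_mul_index
    rw [Nat.card_zpowers, hr, hcard, pow_succ 2 (m + 3)] at h1
    exact Nat.eq_of_mul_eq_mul_left (by positivity) h1
  set z : X := r ^ 2 ^ (m + 2) with hz
  have hzz : z * z = 1 := by
    rw [hz, ← pow_add, ← two_mul, ← pow_succ', ← hr]; exact pow_orderOf_eq_one r
  have hss : s * s = 1 := by
    have := pow_orderOf_eq_one s
    rwa [hs, pow_two] at this
  have hodd : ∃ c, 2 ^ (m + 2) - 1 = 2 * c + 1 := ⟨2 ^ (m + 1) - 1, by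
    have : 2 ^ (m + 2) = 2 * 2 ^ (m + 1) := pow_succ' 2 (m + 1)
    omega⟩
  have hsz : s * z = z * s := by
    have h1 : s * z * s⁻¹ = z := by
      obtain ⟨c, hc⟩ := hodd
      rw [hz, ← conj_pow, hrel, ← pow_mul, mul_comm, pow_mul, ← hz, hc, pow_succ, pow_mul, pow_two,
        hzz, one_pow, one_mul]
    exact mul_inv_eq_iff_eq_mul.1 h1
  have hz1 : z ≠ 1 := by
    intro h
    have h1 := orderOf_dvd_of_pow_eq_one h
    rw [hr] at h1
    have h2 := Nat.le_of_dvd (by positivity) h1
    rw [pow_succ 2 (m + 2)] at h2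
    omega
  have hzr : z ∈ zpowers r := pow_mem (mem_zpowers r) _
  let H : Subgroup X :=
    { carrier := {x | x = 1 ∨ x = z ∨ x = s ∨ x = s * z}
      one_mem' := Or.inl rfl
      mul_mem' := by
        have a1 : s * (s * z) = z := by rw [← mul_assoc, hss, one_mul]
        have a2 : s * z * z = s := by rw [mul_assoc, hzz, mul_one]
        have a3 : s * z * s = z := by rw [hsz, mul_assoc, hss, mul_one]
        have a4 : z * (s * z) = s := by rw [← mul_assoc, ← hsz, a2]
        have a5 : s * z * (s * z) = 1 := by rw [← mul_assoc, a3, hzz]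
        rintro x y (rfl | rfl | rfl | rfl) (rfl | rfl | rfl | rfl) <;>
          simp [a1, a2, a3, a4, a5, hzz, hss, ← hsz]
      inv_mem' := by
        have a1 : z⁻¹ = z := inv_eq_of_mul_eq_one_right hzz
        have a2 : s⁻¹ = s := inv_eq_of_mul_eq_one_right hss
        rintro x (rfl | rfl | rfl | rfl) <;> simp [a1, a2, ← hsz] }
  obtain ⟨Q, hQ, ⟨f⟩⟩ := hN H
  have hHsq : ∀ x : H, x * x = 1 := by
    rintro ⟨x, rfl | rfl | rfl | rfl⟩ <;> apply Subtype.ext
    · exact one_mul 1
    · exact hzz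
    · exact hss
    · change s * z * (s * z) = 1
      rw [← mul_assoc, hsz, mul_assoc z s s, hss, mul_one, hzz]
  have hQsq : ∀ x ∈ Q, x * x = 1 := by
    intro x hx
    have h1 := hHsq (f.symm ⟨x, hx⟩)
    rw [← map_mul, map_eq_one_iff f.symm f.symm.injective] at h1
    exact congrArg Subtype.val h1
  by_cases hx : ∃ x ∈ Q, x ∉ zpowers r
  · obtain ⟨x, hxQ, hxr⟩ := hx
    have hsx : s⁻¹ * x ∈ zpowers r := by
      rw [mul_mem_iff_of_index_two hidx]
      constructor
      · intro h; exact absurd (inv_mem_iff.1 h) hsr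
      · intro h; exact absurd h hxr
    obtain ⟨i, hi⟩ := mem_zpowers_iff.1 hsx
    have hxi : x = s * r ^ i := by rw [hi]; group
    have hxrx : x * r * x⁻¹ = r ^ (2 ^ (m + 2) - 1) := by
      rw [← hrel, hxi]
      have : Commute (r ^ i) r := (Commute.refl r).zpow_left i
      calc s * r ^ i * r * (s * r ^ i)⁻¹ = s * (r ^ i * r * (r ^ i)⁻¹) * s⁻¹ := by group
        _ = s * r * s⁻¹ := by rw [this.eq]; group
    have h1 : x * (r * x⁻¹ * r⁻¹) ∈ Q := mul_mem hxQ (hQ.conj_mem _ (inv_mem hxQ) r)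
    have h2 : x * (r * x⁻¹ * r⁻¹) = r ^ (2 ^ (m + 2) - 2) := by
      have h3 : x * (r * x⁻¹ * r⁻¹) = x * r * x⁻¹ * r⁻¹ := by group
      rw [h3, hxrx]
      have h4 : 2 ^ (m + 2) - 1 = 2 ^ (m + 2) - 2 + 1 := by omega
      rw [h4, pow_succ, mul_inv_cancel_right]
    have h5 := hQsq _ h1
    rw [h2, ← pow_add] at h5
    have h6 := orderOf_dvd_of_pow_eq_one h5
    rw [hr] at h6
    have h7 : 2 ^ (m + 3) = 2 * 2 ^ (m + 2) := pow_succ' 2 (m + 2)
    have h8 : 2 ^ (m + 2) - 2 + (2 ^ (m + 2) - 2) + 4 = 2 ^ (m + 3) := by omega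
    have h9 : 2 ^ (m + 3) ∣ 4 := by
      have h10 : 2 ^ (m + 3) ∣ 2 ^ (m + 2) - 2 + (2 ^ (m + 2) - 2) + 4 := by rw [h8]
      exact (Nat.dvd_add_right h6).1 h10
    have := Nat.le_of_dvd (by norm_num) h9
    omega
  · push Not at hx
    have hrot : ∀ x ∈ Q, x = 1 ∨ x = z := by
      intro x hxQ
      classical
      obtain ⟨a, ha⟩ := Finset.mem_image.1
        ((mem_zpowers_iff_mem_range_orderOf (x := r) (y := x)).1 (hx x hxQ))
      rw [Finset.mem_range, hr] at ha
      obtain ⟨ha1, ha2⟩ := ha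
      have h1 := hQsq x hxQ
      rw [← ha2, ← pow_add, ← two_mul] at h1
      have h2 := orderOf_dvd_of_pow_eq_one h1
      rw [hr, pow_succ' 2 (m + 2), Nat.mul_dvd_mul_iff_left two_pos] at h2
      obtain ⟨c, hc⟩ := h2
      have hc2 : c < 2 := by
        rw [hc, pow_succ 2 (m + 2)] at ha1
        exact Nat.lt_of_mul_lt_mul_left ha1
      interval_cases c
      · left; rw [← ha2, hc]; simp
      · right; rw [← ha2, hc, mul_one]
    let u : H := ⟨s, Or.inr (Or.inr (Or.inl rfl))⟩
    let v : H := ⟨s * z, Or.inr (Or.inr (Or.inr rfl))⟩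
    have hu : u ≠ 1 := by
      intro h
      have : s = 1 := congrArg Subtype.val h
      rw [this, orderOf_one] at hs; omega
    have hv : v ≠ 1 := by
      intro h
      have : s * z = 1 := congrArg Subtype.val h
      apply hsr
      have h2 : s = z⁻¹ := eq_inv_of_mul_eq_one_left this
      rw [h2]; exact inv_mem hzr
    have huv : u ≠ v := by
      intro h
      have : s = s * z := congrArg Subtype.val h
      exact hz1 (by simpa using this)
    have e1 : ∀ x : H, x ≠ 1 → ((f x : Q) : X) = z := by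
      intro x hx
      rcases hrot _ (f x).2 with h | h
      · exfalso; apply hx
        have : f x = 1 := Subtype.ext h
        rwa [map_eq_one_iff f f.injective] at this
      · exact h
    exact huv (f.injective (Subtype.ext ((e1 u hu).trans (e1 v hv).symm)))

lemma propO_normal {G : Type u} [Group G] [Finite G] (hO : PropO G) (N : Subgroup G) [hN : N.Normal] :
    PropO N := by
  intro P hP hP1
  have h1 := hO (P.map N.subtype) (hP.map _)
    (fun h0 => hP1 ((Subgroup.map_eq_bot_iff_of_injective P N.subtype_injective).1 h0))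
  have h2 : (normalizer ((P.map N.subtype : Subgroup G) : Set G)).subgroupOf N ≤
      normalizer (P : Set N) := by
    rintro g hg
    rw [mem_subgroupOf] at hg
    apply mem_norm_of
    intro p hp
    have h3 := (mem_normalizer_iff.1 hg _).1 (mem_map_of_mem N.subtype hp)
    obtain ⟨y, hy, hy2⟩ := mem_map.1 h3
    have : y = g * p * g⁻¹ := Subtype.ext hy2
    rw [← this]; exact hy
  have h3 := index_dvd_of_le h2
  have h4 : ((normalizer ((P.map N.subtype : Subgroup G) : Set G)).subgroupOf N).index ∣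
      (normalizer ((P.map N.subtype : Subgroup G) : Set G)).index := by
    set H := normalizer ((P.map N.subtype : Subgroup G) : Set G)
    have a1 := relIndex_mul_index (inf_le_right : H ⊓ N ≤ N)
    have a2 := relIndex_mul_index (inf_le_left : H ⊓ N ≤ H)
    have a3 := relIndex_mul_index (le_sup_right : N ≤ H ⊔ N)
    rw [inf_relIndex_right] at a1
    rw [inf_relIndex_left] at a2
    rw [relIndex_sup_right] at a3
    have a4 : N.relIndex H ≠ 0 := by
      intro h0
      rw [h0, zero_mul] at a3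
      exact N.index_ne_zero_of_finite a3.symm
    have a5 : H.relIndex N * (H ⊔ N).index = H.index := by
      apply Nat.eq_of_mul_eq_mul_left (Nat.pos_of_ne_zero a4)
      rw [a2, ← a1, ← a3]; ring
    exact ⟨_, a5.symm⟩
  exact h1.of_dvd_nat (h3.trans h4)


open Equiv in
lemma involution_type {n : ℕ} (h7 : n ≤ 7) (t : alternatingGroup (Fin n))
    (ht : orderOf t = 2) : (t : Perm (Fin n)).cycleType = Multiset.replicate 2 2 := by
  have h1 : orderOf (t : Perm (Fin n)) = 2 := by rw [← ht]; exact orderOf_coe t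
  obtain ⟨m, hm⟩ := Perm.cycleType_prime_order (σ := (t : Perm (Fin n)))
    (by rw [h1]; exact Nat.prime_two)
  rw [h1] at hm
  have h2 := Perm.sum_cycleType_le (t : Perm (Fin n))
  rw [hm, Multiset.sum_replicate, Fintype.card_fin, smul_eq_mul] at h2
  have h3 := Perm.sign_of_cycleType (t : Perm (Fin n))
  rw [hm, Multiset.sum_replicate, Multiset.card_replicate, smul_eq_mul,
    Perm.mem_alternatingGroup.1 t.2] at h3
  have h4 : m ≤ 2 := by omega
  interval_cases m
  · exact absurd h3 (by decide)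
  · exact hm
  · exact absurd h3 (by decide)

lemma dedekind_congr {X : Type u} {Y : Type u} [Group X] [Group Y] (e : X ≃* Y)
    (h : IsDedekind X) : IsDedekind Y := by
  intro H
  have h1 := h (H.comap (e : X →* Y))
  have h2 : H = (H.comap (e : X →* Y)).map (e : X →* Y) := by
    rw [Subgroup.map_comap_eq_self_of_surjective e.surjective]
  rw [h2]
  exact h1.map _ e.surjective

open Equiv in
lemma alt_part {n : ℕ} (h6 : 6 ≤ n) (h7 : n ≤ 7) (f : DihedralGroup 4 →* alternatingGroup (Fin n))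
    (hf1 : f (.r 1) * f (.sr 0) * (f (.r 1))⁻¹ ≠ 1)
    (hf2 : f (.r 1) * f (.sr 0) * (f (.r 1))⁻¹ ≠ f (.sr 0)) :
    PropO (alternatingGroup (Fin n)) ∧ ∀ S : Sylow 2 (alternatingGroup (Fin n)), ¬ IsDedekind S := by
  have hD : IsPGroup 2 (DihedralGroup 4) := by
    rw [IsPGroup.iff_card]; exact ⟨3, by rw [DihedralGroup.nat_card]; norm_num⟩
  have hr : IsPGroup 2 f.range := hD.of_surjective f.rangeRestrict f.rangeRestrict_surjective
  obtain ⟨T, hT⟩ := hr.exists_le_sylow
  have hTd : ¬ IsDedekind T := by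
    intro hd
    rw [ded_iff] at hd
    have h1 : f (.r 1) ∈ (T : Subgroup (alternatingGroup (Fin n))) := hT ⟨_, rfl⟩
    have h2 : f (.sr 0) ∈ (T : Subgroup (alternatingGroup (Fin n))) := hT ⟨_, rfl⟩
    have h3 := hd (zpowers (f (.sr 0))) (zpowers_le.2 h2) _ h1 _ (mem_zpowers _)
    have h4 : orderOf (f (.sr 0)) = 2 := by
      rw [orderOf_eq_prime_iff]
      constructor
      · rw [← map_pow, pow_two, DihedralGroup.sr_mul_self, map_one]
      · intro h; apply hf1; rw [h]; simp
    rcases mem_zpowers_two h4 h3 with h | h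
    · exact hf1 h
    · exact hf2 h
  have hall : ∀ S : Sylow 2 (alternatingGroup (Fin n)), ¬ IsDedekind S :=
    fun S hS => hTd (dedekind_congr (S.equiv T) hS)
  refine ⟨?_, hall⟩
  have hnt : Nontrivial (Fin n) := by
    rw [← Fintype.one_lt_card_iff_nontrivial, Fintype.card_fin]; omega
  have hcardG : Nat.card (alternatingGroup (Fin n)) = 8 * 45 ∨
      Nat.card (alternatingGroup (Fin n)) = 8 * 315 := by
    rw [nat_card_alternatingGroup, Nat.card_fin]
    interval_cases n
    · left; decide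
    · right; decide
  have h8 : Nat.card T = 8 := by
    obtain ⟨k, hk⟩ := IsPGroup.iff_card.1 T.2
    have h1 := (T : Subgroup (alternatingGroup (Fin n))).card_mul_index
    have h2 := T.not_dvd_index
    rw [hk] at h1
    have hk8 : 2 ^ 3 ∣ 2 ^ k := by
      have h3 : 2 ^ 3 ∣ 2 ^ k * (T : Subgroup (alternatingGroup (Fin n))).index := by
        rw [h1]; rcases hcardG with h | h <;> rw [h] <;> norm_num
      exact (Nat.Coprime.pow_left 3 ((Nat.Prime.coprime_iff_not_dvd Nat.prime_two).2 h2)).dvd_of_dvd_mul_right h3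
    have hk3 : 3 ≤ k := (Nat.pow_dvd_pow_iff_le_right (by norm_num)).1 hk8
    have hk4 : k < 4 := by
      by_contra hcon
      push Not at hcon
      have h4 : 2 ^ 4 ∣ 2 ^ k := Nat.pow_dvd_pow 2 hcon
      have h5 : 2 ^ 4 ∣ Nat.card (alternatingGroup (Fin n)) := by
        rw [← h1]; exact h4.mul_right _
      rcases hcardG with h | h <;> rw [h] at h5 <;> revert h5 <;> decide
    have : k = 3 := by omega
    rw [hk, this]; norm_num
  have hna : ¬ ∀ x y : T, x * y = y * x := by
    intro hc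
    apply hTd
    intro H
    refine ⟨fun x hx g => ?_⟩
    rw [hc g x, mul_inv_cancel_right]; exact hx
  rw [order8 T h8 hna]
  intro s t hs ht
  apply alternatingGroup.isConj_of
  · rw [Perm.isConj_iff_cycleType_eq, involution_type h7 s hs, involution_type h7 t ht]
  · rw [← Perm.sum_cycleType, involution_type h7 s hs, Fintype.card_fin]
    simp; omega

open Equiv in
/-- the dihedral group of order 8 inside the alternating group on 6 points -/
def f6fun (x : DihedralGroup 4) : Perm (Fin 6) :=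
  let a : Perm (Fin 6) := swap 0 1 * swap 1 2 * swap 2 3 * swap 4 5
  let b : Perm (Fin 6) := swap 0 2 * swap 4 5
  match x with
  | .r i => a ^ i.val
  | .sr i => b * a ^ i.val

open Equiv in
/-- the dihedral group of order 8 inside the alternating group on 7 points -/
def f7fun (x : DihedralGroup 4) : Perm (Fin 7) :=
  let a : Perm (Fin 7) := swap 0 1 * swap 1 2 * swap 2 3 * swap 4 5
  let b : Perm (Fin 7) := swap 0 2 * swap 4 5
  match x with
  | .r i => a ^ i.val
  | .sr i => b * a ^ i.val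

lemma f6_mul : ∀ x y : DihedralGroup 4, f6fun (x * y) = f6fun x * f6fun y := by decide +kernel

lemma f7_mul : ∀ x y : DihedralGroup 4, f7fun (x * y) = f7fun x * f7fun y := by decide +kernel

lemma f6_sign : ∀ x : DihedralGroup 4, Equiv.Perm.sign (f6fun x) = 1 := by decide +kernel

lemma f7_sign : ∀ x : DihedralGroup 4, Equiv.Perm.sign (f7fun x) = 1 := by decide +kernel

def f6 : DihedralGroup 4 →* alternatingGroup (Fin 6) :=
  MonoidHom.mk' (fun x => ⟨f6fun x, Equiv.Perm.mem_alternatingGroup.2 (f6_sign x)⟩)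
    (fun x y => Subtype.ext (f6_mul x y))

def f7 : DihedralGroup 4 →* alternatingGroup (Fin 7) :=
  MonoidHom.mk' (fun x => ⟨f7fun x, Equiv.Perm.mem_alternatingGroup.2 (f7_sign x)⟩)
    (fun x y => Subtype.ext (f7_mul x y))

lemma f6_val (x : DihedralGroup 4) : ((f6 x : alternatingGroup (Fin 6)) : Equiv.Perm (Fin 6)) = f6fun x := rfl

lemma f6_ne1 : f6fun (.r 1) * f6fun (.sr 0) * (f6fun (.r 1))⁻¹ ≠ 1 := by decide +kernel

lemma f6_ne2 : f6fun (.r 1) * f6fun (.sr 0) * (f6fun (.r 1))⁻¹ ≠ f6fun (.sr 0) := by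
  decide +kernel

lemma f6_conj : ((f6 (.r 1) * f6 (.sr 0) * (f6 (.r 1))⁻¹ : alternatingGroup (Fin 6)) :
    Equiv.Perm (Fin 6)) = f6fun (.r 1) * f6fun (.sr 0) * (f6fun (.r 1))⁻¹ := by
  rw [Subgroup.coe_mul, Subgroup.coe_mul, Subgroup.coe_inv, f6_val, f6_val]

lemma alt6 : PropO (alternatingGroup (Fin 6)) ∧
    ∀ S : Sylow 2 (alternatingGroup (Fin 6)), ¬ IsDedekind S := by
  apply alt_part (by norm_num) (by norm_num) f6
  · intro h
    apply f6_ne1
    rw [← f6_conj, h, Subgroup.coe_one]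
  · intro h
    apply f6_ne2
    rw [← f6_conj, h, f6_val]

lemma f7_val (x : DihedralGroup 4) : ((f7 x : alternatingGroup (Fin 7)) : Equiv.Perm (Fin 7)) = f7fun x := rfl

lemma f7_ne1 : f7fun (.r 1) * f7fun (.sr 0) * (f7fun (.r 1))⁻¹ ≠ 1 := by decide +kernel

lemma f7_ne2 : f7fun (.r 1) * f7fun (.sr 0) * (f7fun (.r 1))⁻¹ ≠ f7fun (.sr 0) := by
  decide +kernel

lemma f7_conj : ((f7 (.r 1) * f7 (.sr 0) * (f7 (.r 1))⁻¹ : alternatingGroup (Fin 7)) :
    Equiv.Perm (Fin 7)) = f7fun (.r 1) * f7fun (.sr 0) * (f7fun (.r 1))⁻¹ := by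
  rw [Subgroup.coe_mul, Subgroup.coe_mul, Subgroup.coe_inv, f7_val, f7_val]

lemma alt7 : PropO (alternatingGroup (Fin 7)) ∧
    ∀ S : Sylow 2 (alternatingGroup (Fin 7)), ¬ IsDedekind S := by
  apply alt_part (by norm_num) (by norm_num) f7
  · intro h
    apply f7_ne1
    rw [← f7_conj, h, Subgroup.coe_one]
  · intro h
    apply f7_ne2
    rw [← f7_conj, h, f7_val]


lemma small_sylow {G : Type u} [Group G] [Finite G] (S : Sylow 2 G) (h8 : Nat.card S ≤ 8) :
    PropO G ↔ (∀ x y : S, x * y = y * x) ∨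
      ∀ s t : G, orderOf s = 2 → orderOf t = 2 → IsConj s t := by
  by_cases hc : ∀ x y : S, x * y = y * x
  · refine ⟨fun _ => Or.inl hc, fun _ => dedekind_imp fun T => (ded_iff _).1 ?_⟩
    refine dedekind_congr (S.equiv T) fun H => ⟨fun x hx g => ?_⟩
    rw [hc g x, mul_inv_cancel_right]; exact hx
  · have hcard : Nat.card S = 8 := by
      obtain ⟨k, hk⟩ := IsPGroup.iff_card.1 S.2
      have hk3 : k ≤ 3 := by
        by_contra hcon
        push Not at hcon
        have : 2 ^ 4 ≤ 2 ^ k := Nat.pow_le_pow_right (by norm_num) hcon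
        omega
      have hk' : Nat.card S = 2 ^ k := hk
      interval_cases k
      · exfalso; apply hc
        have : Subsingleton S := (Nat.card_eq_one_iff_unique.1 (by simpa using hk')).1
        exact fun x y => Subsingleton.elim _ _
      · exfalso; apply hc
        have : IsCyclic S := isCyclic_of_prime_card (p := 2) (by simpa using hk')
        exact fun x y => (IsCyclic.commGroup (α := S)).mul_comm x y
      · exfalso; apply hc
        have hcm := IsPGroup.isMulCommutative_of_card_eq_prime_sq (p := 2) hk'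
        exact fun x y => hcm.is_comm.comm x y
      · exact hk'
    rw [order8 S hcard hc]
    exact ⟨Or.inr, fun h => h.resolve_left hc⟩

/-- Property (O) is inherited by normal subgroups and quotients; it holds if the Sylow
2-subgroups are Dedekind, and for solvable and for 2-constrained groups only then.  Complete
answers are given when the Sylow 2-subgroups have order at most 8 or are dihedral, semidihedral
or generalized quaternion.  The alternating groups of degree 6 and 7 have property (O), but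
their Sylow 2-subgroups are not Dedekind. -/
theorem result :
    (∀ (G : Type u) [Group G] [Finite G],
      ((∀ S : Sylow 2 G, IsDedekind S) → PropO G) ∧
      (Group.IsSolvable G ∨ IsTwoConstrained G → (PropO G ↔ ∀ S : Sylow 2 G, IsDedekind S)) ∧
      (PropO G → ∀ (N : Subgroup G) (_ : N.Normal), PropO N ∧ PropO (G ⧸ N)) ∧
      (∀ S : Sylow 2 G,
        (PropO G → ∀ H : Subgroup S, ∃ Q : Subgroup S, Q.Normal ∧ Nonempty (H ≃* Q)) ∧
        (Nat.card S ≤ 8 → (PropO G ↔ (∀ x y : S, x * y = y * x) ∨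
          ∀ s t : G, orderOf s = 2 → orderOf t = 2 → IsConj s t)) ∧
        (∀ k : ℕ, 3 ≤ k → Nonempty (S ≃* DihedralGroup (2 ^ k)) → ¬ PropO G) ∧
        (IsSemidihedral S → ¬ PropO G) ∧
        (Nonempty (S ≃* QuaternionGroup 4) → (PropO G ↔
          ∀ x y : G, orderOf x = 4 → orderOf y = 4 → ∃ g : G, g * x * g⁻¹ ∈ zpowers y)) ∧
        (∀ k : ℕ, 3 ≤ k → Nonempty (S ≃* QuaternionGroup (2 ^ k)) → ¬ PropO G))) ∧
    (PropO (alternatingGroup (Fin 6)) ∧
      ∀ S : Sylow 2 (alternatingGroup (Fin 6)), ¬ IsDedekind S) ∧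
    (PropO (alternatingGroup (Fin 7)) ∧
      ∀ S : Sylow 2 (alternatingGroup (Fin 7)), ¬ IsDedekind S) := by
  refine ⟨fun G _ _ => ?_, alt6, alt7⟩
  have h1 : (∀ S : Sylow 2 G, IsDedekind S) → PropO G := fun h =>
    dedekind_imp fun S => (ded_iff _).1 (h S)
  refine ⟨h1, fun hs => ⟨fun hO S => (ded_iff _).2 ?_, h1⟩,
    fun hO N hN => ⟨propO_normal hO N, propO_quot hO N⟩, fun S => ⟨fun hO => propN_of_propO hO S,
      small_sylow S, ?_, ?_, ?_, ?_⟩⟩
  · rcases hs with hs | hs
    · exact ded_of_propO _ G rfl hs hO S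
    · exact ded_of_constrained hO hs S
  · rintro k hk ⟨e⟩ hO
    exact not_propN_dihedral hk ((propN_of_propO hO S).congr e)
  · intro h hO
    exact not_propN_semidihedral h (propN_of_propO hO S)
  · rintro ⟨e⟩
    exact quat16 S e
  · rintro k hk ⟨e⟩ hO
    exact not_propN_quaternion hk ((propN_of_propO hO S).congr e)

end Pool.Agent.Results.MP_cd0fff_al.Classes
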