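import Mathlib
import Pool.Agent.Helper128.OddIndex.Main

set_option autoImplicit false

namespace Pool.Agent.Results.MP_cd0fff_al.TwoConstrainedGroups

open Pool.Agent.Helper128.OddIndex

theorem result (G : Type) [Group G] [Finite G] :
    -- (1) Dedekind Sylow 2-subgroups give property (O)
    ((∀ S : Sylow 2 G, Ded (S : Subgroup G)) → PropertyO G) ∧
    -- (2) necessary conditions on every normal 2-subgroup, for every finite group with property (O)
    (PropertyO G → ∀ R : Subgroup G, R.Normal → IsPGroup 2 R →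
      Ded R ∧ ∀ x : G, x ^ 2 ∈ R → ∀ r ∈ R, r * x * r⁻¹ * x⁻¹ ∈ (frattini R).map R.subtype) ∧
    -- (3) the classification for 2-constrained groups
    (TwoConstrained G →
      ((PropertyO G ↔ ∀ S : Sylow 2 G, Ded (S : Subgroup G)) ∧
      (PropertyO G → ∀ O : Subgroup G, IsGreatest {N : Subgroup G | N.Normal ∧ Odd (Nat.card N)} O →
        ∀ S : Sylow 2 G, ((S : Subgroup G) ⊔ O).Normal))) ∧
    -- (4) 2-soluble groups and soluble groups are 2-constrained
    (Pool.Agent.Helper128.AutDiv.RSoluble 2 G → TwoConstrained G) ∧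
    (Group.IsSolvable G → TwoConstrained G) :=
  ⟨propO_of_ded G,
   fun hO R hn hR => ⟨ded_normal G hO R hn hR, fun x hx r hr => squares G hO R hn hR x hx r hr⟩,
   fun h2 => ⟨main_iff G h2, fun hO O hgO S => (main_dir G hO h2 O hgO S).2⟩,
   twoC_of_rs G,
   fun hs => twoC_of_rs G (Pool.Agent.Helper128.AutDiv.rs_of_soluble 2 Nat.prime_two G hs)⟩

end Pool.Agent.Results.MP_cd0fff_al.TwoConstrainedGroups
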